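import Mathlib

open Finset

namespace Pool.Agent.Lib.Pabc6

/-- A subset of weight in `[δ, 2 δ)` when all weights are less than `δ`. -/
theorem exists_block {δ : ℝ} (hδ : 0 < δ) (u : ℕ → ℝ) : ∀ A : Finset ℕ, (∀ p ∈ A, 0 ≤ u p ∧ u p < δ) →
    δ ≤ ∑ p ∈ A, u p → ∃ K ⊆ A, δ ≤ ∑ p ∈ K, u p ∧ ∑ p ∈ K, u p < 2 * δ := by
  classical
  intro A
  induction A using Finset.induction_on with
  | empty =>
    intro _ h
    simp only [Finset.sum_empty] at h
    linarith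
  | insert a A ha ih =>
    intro hA h
    by_cases h2 : δ ≤ ∑ p ∈ A, u p
    · obtain ⟨K, hK, h3, h4⟩ := ih (fun p hp => hA p (Finset.mem_insert_of_mem hp)) h2
      exact ⟨K, hK.trans (Finset.subset_insert _ _), h3, h4⟩
    · refine ⟨insert a A, Finset.Subset.refl _, h, ?_⟩
      rw [Finset.sum_insert ha]
      push Not at h2
      have h3 := (hA a (Finset.mem_insert_self _ _)).2
      linarith

/-- A cheap subset of weight at least `δ`. -/
theorem cheap_small {δ : ℝ} (hδ : 0 < δ) (u s : ℕ → ℝ) (k : ℕ) : ∀ A : Finset ℕ,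
    (∀ p ∈ A, 0 ≤ u p ∧ u p < δ) → (∀ p ∈ A, 0 ≤ s p) →
    2 * ((k : ℝ) + 1) * δ ≤ ∑ p ∈ A, u p →
    ∃ K ⊆ A, δ ≤ ∑ p ∈ K, u p ∧ ((k : ℝ) + 1) * ∑ p ∈ K, s p ≤ ∑ p ∈ A, s p := by
  classical
  induction k with
  | zero =>
    intro A _ _ h
    refine ⟨A, Finset.Subset.refl _, ?_, by simp⟩
    push_cast at h
    linarith
  | succ k ih =>
    intro A hA hs h
    have hk : (0 : ℝ) ≤ k := Nat.cast_nonneg k
    obtain ⟨K1, hK1, h1, h2⟩ := exists_block hδ u A hA (by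
      refine le_trans ?_ h
      push_cast
      nlinarith)
    have e1 : ∑ p ∈ A \ K1, u p + ∑ p ∈ K1, u p = ∑ p ∈ A, u p := Finset.sum_sdiff hK1
    have e2 : ∑ p ∈ A \ K1, s p + ∑ p ∈ K1, s p = ∑ p ∈ A, s p := Finset.sum_sdiff hK1
    obtain ⟨K2, hK2, h3, h4⟩ := ih (A \ K1) (fun p hp => hA p (Finset.sdiff_subset hp))
      (fun p hp => hs p (Finset.sdiff_subset hp)) (by
        push_cast at h
        linarith)
    by_cases hc : ((k : ℝ) + 2) * ∑ p ∈ K1, s p ≤ ∑ p ∈ A, s p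
    · refine ⟨K1, hK1, h1, ?_⟩
      push_cast
      linarith
    · refine ⟨K2, hK2.trans Finset.sdiff_subset, h3, ?_⟩
      push Not at hc
      push_cast
      have h7 : ((k : ℝ) + 1) * (((k : ℝ) + 1 + 1) * ∑ p ∈ K2, s p) ≤
          ((k : ℝ) + 1) * ∑ p ∈ A, s p := by
        nlinarith
      exact le_of_mul_le_mul_left h7 (by positivity)

/-- In a set of weight at least `2 (k + 1) δ` there are an element `r` and a subset of weight at
least `δ` whose size is at most the size of `r` plus a `1 / (k + 1)` part of the total size. -/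
theorem cheap {δ : ℝ} (hδ : 0 < δ) (u s : ℕ → ℝ) (k : ℕ) (A : Finset ℕ)
    (hu : ∀ p ∈ A, 0 ≤ u p) (hs : ∀ p ∈ A, 0 ≤ s p)
    (h : 2 * ((k : ℝ) + 1) * δ ≤ ∑ p ∈ A, u p) :
    ∃ r ∈ A, ∃ K ⊆ A, δ ≤ ∑ p ∈ K, u p ∧
      ((k : ℝ) + 1) * ∑ p ∈ K, s p ≤ ((k : ℝ) + 1) * s r + ∑ p ∈ A, s p := by
  classical
  have hk : (0 : ℝ) ≤ k := Nat.cast_nonneg k
  have hsA : 0 ≤ ∑ p ∈ A, s p := Finset.sum_nonneg hs
  have hne : A.Nonempty := by
    rw [Finset.nonempty_iff_ne_empty]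
    rintro rfl
    simp only [Finset.sum_empty] at h
    have : 0 < 2 * ((k : ℝ) + 1) * δ := by positivity
    linarith
  by_cases hex : ∃ p ∈ A, δ ≤ u p
  · obtain ⟨p, hp, hup⟩ := hex
    refine ⟨p, hp, {p}, Finset.singleton_subset_iff.mpr hp, ?_, ?_⟩
    · rw [Finset.sum_singleton]; exact hup
    · rw [Finset.sum_singleton]; linarith
  · push Not at hex
    obtain ⟨K, hK, h1, h2⟩ := cheap_small hδ u s k A (fun p hp => ⟨hu p hp, hex p hp⟩) hs h
    obtain ⟨r, hr⟩ := hne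
    refine ⟨r, hr, K, hK, h1, ?_⟩
    have := hs r hr
    nlinarith

section

variable (P : Finset ℕ) (lb : ℕ → Fin 3) (u s : ℕ → ℝ) (c δ : ℝ)

/-- There is a light set with a small complement. -/
def Lt : Prop := ∃ Q ⊆ P, ∑ p ∈ Q, u p ≤ 1 - δ ∧
  3 * c * ∑ p ∈ P \ Q, s p ≤ (2 * c + 1) * ∑ p ∈ P, s p

/-- There is a mixed decomposition with a small known part. -/
def Mx : Prop := ∃ R ∈ P, ∃ S ⊆ P.erase R, ∃ l' : Fin 3, lb R ≠ l' ∧
  (∀ p ∈ P, p ≠ R → p ∉ S → lb p = l') ∧ δ ≤ ∑ p ∈ S.filter (fun p => lb p = l'), u p ∧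
  3 * c * ∑ p ∈ S, s p ≤ (2 * c + 1) * ∑ p ∈ P, s p ∧ δ < u R

/-- The members. -/
def mb (l : Fin 3) : Finset ℕ := P.filter (fun p => lb p = l)

variable {P lb u s c δ}

theorem mk (hδ : 0 < δ) (hu : ∀ p ∈ P, 0 ≤ u p) (hW : ∀ l, ∑ p ∈ mb P lb l, u p ≤ 1) {l l' : Fin 3}
    (hll : l ≠ l') {R : ℕ} (hR : R ∈ mb P lb l) {K : Finset ℕ} (hK : K ⊆ mb P lb l')
    (hw : 2 * δ ≤ ∑ p ∈ K, u p)
    (hs : 3 * c * (∑ p ∈ P, s p - s R - ∑ p ∈ mb P lb l' \ K, s p) ≤ (2 * c + 1) * ∑ p ∈ P, s p) :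
    Lt P u s c δ ∨ Mx P lb u s c δ := by
  classical
  have hRP := (Finset.mem_filter.mp hR).1
  have hRl := (Finset.mem_filter.mp hR).2
  set Q := insert R (mb P lb l' \ K) with hQ
  have hRn : R ∉ mb P lb l' \ K := by
    intro h
    have := (Finset.mem_filter.mp (Finset.mem_sdiff.mp h).1).2
    exact hll (hRl.symm.trans this)
  have hQP : Q ⊆ P := by
    intro p hp
    rcases Finset.mem_insert.mp hp with rfl | hp
    · exact hRP
    · exact (Finset.mem_filter.mp (Finset.mem_sdiff.mp hp).1).1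
  have e1 : ∑ p ∈ P \ Q, s p = ∑ p ∈ P, s p - s R - ∑ p ∈ mb P lb l' \ K, s p := by
    have := Finset.sum_sdiff (f := s) hQP
    rw [hQ, Finset.sum_insert hRn] at this
    rw [hQ]
    linarith
  by_cases hc : δ < u R
  · right
    refine ⟨R, hRP, P \ Q, ?_, l', by rw [hRl]; exact hll, ?_, ?_, by rw [e1]; exact hs, hc⟩
    · intro p hp
      rw [Finset.mem_sdiff] at hp
      rw [Finset.mem_erase]
      exact ⟨fun h => hp.2 (by rw [h]; exact Finset.mem_insert_self _ _), hp.1⟩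
    · intro p hp hpR hpS
      rw [Finset.mem_sdiff, not_and, not_not] at hpS
      rcases Finset.mem_insert.mp (hpS hp) with h | h
      · exact absurd h hpR
      · exact (Finset.mem_filter.mp (Finset.mem_sdiff.mp h).1).2
    · have hsub : K ⊆ (P \ Q).filter (fun p => lb p = l') := by
        intro p hp
        have h1 := Finset.mem_filter.mp (hK hp)
        rw [Finset.mem_filter, Finset.mem_sdiff]
        refine ⟨⟨h1.1, ?_⟩, h1.2⟩
        intro h
        rcases Finset.mem_insert.mp h with h | h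
        · rw [h, hRl] at h1
          exact hll h1.2
        · exact (Finset.mem_sdiff.mp h).2 hp
      have := Finset.sum_le_sum_of_subset_of_nonneg (f := u) hsub
        (fun p hp _ => hu p (Finset.mem_sdiff.mp (Finset.mem_filter.mp hp).1).1)
      linarith
  · left
    refine ⟨Q, hQP, ?_, by rw [e1]; exact hs⟩
    rw [hQ, Finset.sum_insert hRn]
    have := Finset.sum_sdiff (f := u) hK
    have := hW l'
    linarith

theorem sum_mb (f : ℕ → ℝ) : ∑ p ∈ P, f p =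
    ∑ p ∈ mb P lb 0, f p + ∑ p ∈ mb P lb 1, f p + ∑ p ∈ mb P lb 2, f p := by
  classical
  rw [← Finset.sum_fiberwise (s := P) (g := lb) (f := f), Fin.sum_univ_three]
  rfl

/-- The covering lemma. -/
theorem cover_abs (hδ : 0 < δ) (hu : ∀ p ∈ P, 0 ≤ u p) (hs : ∀ p ∈ P, 0 ≤ s p)
    (hW : ∀ l, ∑ p ∈ mb P lb l, u p ≤ 1) (h1 : 1 / 2 ≤ ∑ p ∈ mb P lb 1, u p)
    (h2 : 1 / 2 ≤ ∑ p ∈ mb P lb 2, u p) (k : ℕ) (hc : c = (k : ℝ) + 1)
    (hk : 4 * c * (4 * c + 1) * δ ≤ 1) : Lt P u s c δ ∨ Mx P lb u s c δ := by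
  classical
  have hk0 : (0 : ℝ) ≤ k := Nat.cast_nonneg k
  have hc1 : 1 ≤ c := by rw [hc]; linarith
  have hc0 : 0 < c := by linarith
  have hmu : ∀ l, ∀ p ∈ mb P lb l, 0 ≤ u p := fun l p hp => hu p (Finset.mem_filter.mp hp).1
  have hms : ∀ l, ∀ p ∈ mb P lb l, 0 ≤ s p := fun l p hp => hs p (Finset.mem_filter.mp hp).1
  have hsP := sum_mb (P := P) (lb := lb) s
  have hS : ∀ l, 0 ≤ ∑ p ∈ mb P lb l, s p := fun l => Finset.sum_nonneg (hms l)
  have hcd : 0 ≤ c * δ := by positivity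
  have hccd : c * δ ≤ c * c * δ := by nlinarith
  have hδc : δ ≤ c * δ := by nlinarith
  by_contra hcon
  rw [not_or] at hcon
  by_cases hw0 : 4 * c * δ ≤ ∑ p ∈ mb P lb 0, u p
  · obtain ⟨r0, hr0, K0, hK0, a0, b0⟩ := cheap (δ := 2 * δ) (by positivity) u s k (mb P lb 0)
      (hmu 0) (hms 0) (by rw [← hc]; linarith)
    obtain ⟨r1, hr1, K1, hK1, a1, b1⟩ := cheap (δ := 2 * δ) (by positivity) u s k (mb P lb 1)
      (hmu 1) (hms 1) (by rw [← hc]; nlinarith)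
    obtain ⟨r2, hr2, K2, hK2, a2, b2⟩ := cheap (δ := 2 * δ) (by positivity) u s k (mb P lb 2)
      (hmu 2) (hms 2) (by rw [← hc]; nlinarith)
    rw [← hc] at b0 b1 b2
    have e0 := Finset.sum_sdiff (f := s) hK0
    have e1 := Finset.sum_sdiff (f := s) hK1
    have e2 := Finset.sum_sdiff (f := s) hK2
    have f1 : ¬ 3 * c * (∑ p ∈ P, s p - s r0 - ∑ p ∈ mb P lb 1 \ K1, s p) ≤
        (2 * c + 1) * ∑ p ∈ P, s p := by
      intro h
      rcases mk hδ hu hW (show (0 : Fin 3) ≠ 1 by decide) hr0 hK1 a1 h with h | h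
      · exact hcon.1 h
      · exact hcon.2 h
    have f2 : ¬ 3 * c * (∑ p ∈ P, s p - s r1 - ∑ p ∈ mb P lb 2 \ K2, s p) ≤
        (2 * c + 1) * ∑ p ∈ P, s p := by
      intro h
      rcases mk hδ hu hW (show (1 : Fin 3) ≠ 2 by decide) hr1 hK2 a2 h with h | h
      · exact hcon.1 h
      · exact hcon.2 h
    have f3 : ¬ 3 * c * (∑ p ∈ P, s p - s r2 - ∑ p ∈ mb P lb 0 \ K0, s p) ≤
        (2 * c + 1) * ∑ p ∈ P, s p := by
      intro h
      rcases mk hδ hu hW (show (2 : Fin 3) ≠ 0 by decide) hr2 hK0 a0 h with h | h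
      · exact hcon.1 h
      · exact hcon.2 h
    push Not at f1 f2 f3
    have g0 : ∑ p ∈ mb P lb 0 \ K0, s p = ∑ p ∈ mb P lb 0, s p - ∑ p ∈ K0, s p := by linarith
    have g1 : ∑ p ∈ mb P lb 1 \ K1, s p = ∑ p ∈ mb P lb 1, s p - ∑ p ∈ K1, s p := by linarith
    have g2 : ∑ p ∈ mb P lb 2 \ K2, s p = ∑ p ∈ mb P lb 2, s p - ∑ p ∈ K2, s p := by linarith
    rw [g0] at f3
    rw [g1] at f1
    rw [g2] at f2
    nlinarith
  · push Not at hw0
    obtain ⟨r1, hr1, K1, hK1, a1, b1⟩ := cheap (δ := (4 * c + 1) * δ) (by positivity) u s k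
      (mb P lb 1) (hmu 1) (hms 1) (by rw [← hc]; nlinarith)
    obtain ⟨r2, hr2, K2, hK2, a2, b2⟩ := cheap (δ := (4 * c + 1) * δ) (by positivity) u s k
      (mb P lb 2) (hmu 2) (hms 2) (by rw [← hc]; nlinarith)
    rw [← hc] at b1 b2
    have e1 := Finset.sum_sdiff (f := s) hK1
    have e2 := Finset.sum_sdiff (f := s) hK2
    have f1 : ¬ 3 * c * (∑ p ∈ P, s p - ∑ p ∈ mb P lb 0, s p - ∑ p ∈ mb P lb 1 \ K1, s p) ≤
        (2 * c + 1) * ∑ p ∈ P, s p := by
      intro h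
      apply hcon.1
      have hdisj : Disjoint (mb P lb 0) (mb P lb 1 \ K1) := by
        rw [Finset.disjoint_left]
        intro p hp hp2
        have h3 := (Finset.mem_filter.mp hp).2
        have h4 := (Finset.mem_filter.mp (Finset.mem_sdiff.mp hp2).1).2
        rw [h3] at h4
        exact absurd h4 (by decide)
      have hsub : mb P lb 0 ∪ (mb P lb 1 \ K1) ⊆ P := by
        intro p hp
        rcases Finset.mem_union.mp hp with hp | hp
        · exact (Finset.mem_filter.mp hp).1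
        · exact (Finset.mem_filter.mp (Finset.mem_sdiff.mp hp).1).1
      refine ⟨mb P lb 0 ∪ (mb P lb 1 \ K1), hsub, ?_, ?_⟩
      · rw [Finset.sum_union hdisj]
        have h5 := Finset.sum_sdiff (f := u) hK1
        have h6 := hW 1
        linarith
      · have h5 := Finset.sum_sdiff (f := s) hsub
        rw [Finset.sum_union hdisj] at h5
        have h6 : ∑ p ∈ P \ (mb P lb 0 ∪ (mb P lb 1 \ K1)), s p =
            ∑ p ∈ P, s p - ∑ p ∈ mb P lb 0, s p - ∑ p ∈ mb P lb 1 \ K1, s p := by linarith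
        rw [h6]
        exact h
    have f2 : ¬ 3 * c * (∑ p ∈ P, s p - s r1 - ∑ p ∈ mb P lb 2 \ K2, s p) ≤
        (2 * c + 1) * ∑ p ∈ P, s p := by
      intro h
      rcases mk hδ hu hW (show (1 : Fin 3) ≠ 2 by decide) hr1 hK2 (by nlinarith) h with h | h
      · exact hcon.1 h
      · exact hcon.2 h
    have f3 : ¬ 3 * c * (∑ p ∈ P, s p - s r2 - ∑ p ∈ mb P lb 1 \ mb P lb 1, s p) ≤
        (2 * c + 1) * ∑ p ∈ P, s p := by
      intro h
      rcases mk hδ hu hW (show (2 : Fin 3) ≠ 1 by decide) hr2 (Finset.Subset.refl _)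
        (by nlinarith) h with h | h
      · exact hcon.1 h
      · exact hcon.2 h
    push Not at f1 f2 f3
    rw [Finset.sdiff_self, Finset.sum_empty] at f3
    have g1 : ∑ p ∈ mb P lb 1 \ K1, s p = ∑ p ∈ mb P lb 1, s p - ∑ p ∈ K1, s p := by linarith
    have g2 : ∑ p ∈ mb P lb 2 \ K2, s p = ∑ p ∈ mb P lb 2, s p - ∑ p ∈ K2, s p := by linarith
    rw [g1] at f1
    rw [g2] at f2
    have h0 := hS 0
    nlinarith

end

end Pool.Agent.Lib.Pabc6
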