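import Mathlib
import Pool.Agent.Lib.Pabc1.RCount
import Pool.Agent.Lib.Pabc1.TFDelta

open Finset Filter Topology

namespace Pool.Agent.Lib.Pabc6

open Pool.Agent.Lib.Pabc1 Pool.Agent.Lib.Pabc2

theorem l3_l3 (l l' : Fin 3) : l3 l (l3 l l') = l' := by
  revert l l'
  decide

/-- A class of triples with a free prime `R` in the component `l`, known part `S`, and the rest
of the radical in the component `l'`, whose known part is not light. -/
theorem mix_class_bound {δ : ℝ} (hδ : 0 < δ) (hδ1 : δ ≤ 1) {K : ℕ} (hK : 8 / δ ≤ K)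
    (S : Finset ℕ) (T : Finset (ℕ × ℕ)) (R : ℕ × ℕ → ℕ) (g : ℕ) (l l' : Fin 3) (hll : l ≠ l')
    (hI : ∀ t ∈ T, IsT t) (hR : ∀ t ∈ T, R t ∈ (N t).primeFactors)
    (hRinj : Set.InjOn R (T : Set (ℕ × ℕ)))
    (hS : ∀ t ∈ T, S ⊆ (N t).primeFactors.erase (R t))
    (hout : ∀ t ∈ T, ∀ p ∈ (N t).primeFactors, p ≠ R t → p ∉ S → lab t p = l')
    (hg : ∀ t ∈ T, ex t (R t) = g) (hl : ∀ t ∈ T, lab t (R t) = l)
    (hc : ∀ t ∈ T, ∀ t' ∈ T, codeD K S t = codeD K S t')
    (hh : ∀ t ∈ T, ∀ t' ∈ T, codeH K δ t = codeH K δ t')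
    (hw : ∀ t ∈ T, δ ≤ ∑ p ∈ S.filter (fun p => lab t p = l'), u t p)
    (ℓ : ℕ) (hℓ : 1 ≤ ℓ) (hgℓ : 10 / δ * ℓ ≤ g) (hbig : ∀ t ∈ T, 128 / δ ^ 2 ≤ ht t) :
    T.card.choose ℓ ≤ g ^ S.card * (4 * ∏ p ∈ S, p) ^ 2 := by
  classical
  rcases T.eq_empty_or_nonempty with rfl | hne
  · rw [Finset.card_empty, Nat.choose_eq_zero_of_lt (by omega)]
    exact Nat.zero_le _
  obtain ⟨t0, ht0, hmin⟩ := Finset.exists_min_image T ht hne
  have H0 := ht_pos (hI t0 ht0)
  have hK0 : (0 : ℝ) < K := lt_of_lt_of_le (by positivity) hK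
  have hK1 : 1 / (K : ℝ) ≤ δ / 8 := by
    rw [div_le_iff₀ hδ] at hK
    rw [div_le_iff₀ hK0]
    linarith
  have hbig1 : ∀ t ∈ T, 1 ≤ ht t := by
    intro t ht'
    refine le_trans ?_ (hbig t ht')
    rw [le_div_iff₀ (by positivity)]
    nlinarith
  have hSpf : ∀ t ∈ T, S ⊆ (N t).primeFactors := fun t ht' => (hS t ht').trans (Finset.erase_subset _ _)
  have hRp : ∀ t ∈ T, (R t).Prime := fun t ht' => Nat.prime_of_mem_primeFactors (hR t ht')
  have hRS : ∀ t ∈ T, R t ∉ S := fun t ht' h => (Finset.mem_erase.mp (hS t ht' h)).1 rfl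
  have hSp : ∀ p ∈ S, p.Prime := fun p hp => Nat.prime_of_mem_primeFactors (hSpf t0 ht0 hp)
  have hpt : ∀ t ∈ T, ∀ p ∈ S, lab t p = lab t0 p ∧
      ⌊u t p * (K * S.card)⌋₊ = ⌊u t0 p * (K * S.card)⌋₊ := by
    intro t ht' p hp
    have := congrFun (congrFun (hc t ht' t0 ht0) p) hp
    exact Prod.ext_iff.mp this
  have hratio : ∀ t ∈ T, ht t ≤ (1 + δ / 4) * ht t0 := by
    intro t ht'
    have hb : ⌊Real.log (ht t0) / Real.log (1 + δ / 4)⌋₊ =
      ⌊Real.log (ht t) / Real.log (1 + δ / 4)⌋₊ := (Prod.ext_iff.mp (hh t0 ht0 t ht')).2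
    exact ratio_of_floor_eq (by linarith) (hbig1 t0 ht0) (hbig1 t ht') hb
  set m' := l3 l l' with hm'
  have hml : m' ≠ l ∧ m' ≠ l' := l3_ne hll
  have hl3 : l3 l m' = l' := by rw [hm']; exact l3_l3 l l'
  set X := S.filter (fun p => lab t0 p = l) with hX
  set Z := S.filter (fun p => lab t0 p = m') with hZ
  set SM := S.filter (fun p => lab t0 p = l') with hSM
  set m : ℕ → ℕ := fun p => T.inf' hne (fun t => ex t p) with hm
  set M : ℕ := ∏ p ∈ SM, p ^ m p with hM
  -- the components
  have hpfl : ∀ t ∈ T, (N t).primeFactors.filter (fun p => lab t p = l) = insert (R t) X := by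
    intro t ht'
    ext p
    rw [Finset.mem_filter, Finset.mem_insert, hX, Finset.mem_filter]
    constructor
    · rintro ⟨h1, h2⟩
      by_cases hpR : p = R t
      · left; exact hpR
      · right
        by_cases hpS : p ∈ S
        · exact ⟨hpS, by rw [← (hpt t ht' p hpS).1]; exact h2⟩
        · exfalso
          have := hout t ht' p h1 hpR hpS
          rw [this] at h2
          exact hll h2.symm
    · rintro (rfl | ⟨h1, h2⟩)
      · exact ⟨hR t ht', hl t ht'⟩
      · exact ⟨hSpf t ht' h1, by rw [(hpt t ht' p h1).1]; exact h2⟩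
  have hpfm : ∀ t ∈ T, (N t).primeFactors.filter (fun p => lab t p = m') = Z := by
    intro t ht'
    ext p
    rw [Finset.mem_filter, hZ, Finset.mem_filter]
    constructor
    · rintro ⟨h1, h2⟩
      have hpR : p ≠ R t := by
        rintro rfl
        rw [hl t ht'] at h2
        exact hml.1 h2.symm
      by_cases hpS : p ∈ S
      · exact ⟨hpS, by rw [← (hpt t ht' p hpS).1]; exact h2⟩
      · exfalso
        have := hout t ht' p h1 hpR hpS
        rw [this] at h2
        exact hml.2 h2.symm
    · rintro ⟨h1, h2⟩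
      exact ⟨hSpf t ht' h1, by rw [(hpt t ht' p h1).1]; exact h2⟩
  have hRX : ∀ t ∈ T, R t ∉ X := fun t ht' h => hRS t ht' (Finset.mem_filter.mp h).1
  have hcompl : ∀ t ∈ T, comp t l = R t ^ g * ∏ p ∈ X, p ^ ex t p := by
    intro t ht'
    rw [comp_eq (hI t ht') l, hpfl t ht', Finset.prod_insert (hRX t ht'), hg t ht']
  have hcompm : ∀ t ∈ T, comp t m' = ∏ p ∈ Z, p ^ ex t p := by
    intro t ht'
    rw [comp_eq (hI t ht') m', hpfm t ht']
  have hMdvd : ∀ t ∈ T, M ∣ comp t l' := by
    intro t ht'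
    have h1 : (∏ p ∈ SM, p ^ ex t p) ∣ comp t l' := by
      rw [comp_eq (hI t ht') l']
      apply Finset.prod_dvd_prod_of_subset
      intro p hp
      rw [hSM, Finset.mem_filter] at hp
      rw [Finset.mem_filter]
      exact ⟨hSpf t ht' hp.1, by rw [(hpt t ht' p hp.1).1]; exact hp.2⟩
    refine dvd_trans ?_ h1
    rw [hM]
    apply Finset.prod_dvd_prod_of_dvd
    intro p _
    exact pow_dvd_pow p (Finset.inf'_le _ ht')
  have hdiv : ∀ t ∈ T, (M : ℤ) ∣ ((R t ^ g * ∏ p ∈ X, p ^ ex t p : ℕ) : ℤ) -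
      sg2 l m' * ((∏ p ∈ Z, p ^ ex t p : ℕ) : ℤ) := by
    intro t ht'
    rw [← hcompl t ht', ← hcompm t ht']
    have h1 := comp_rel2 t hml.1.symm
    rw [hl3] at h1
    exact (Int.natCast_dvd_natCast.mpr (hMdvd t ht')).trans h1
  have hℓ0 : (0 : ℝ) < ℓ := by exact_mod_cast hℓ
  have hgR : (0 : ℝ) < g := lt_of_lt_of_le (by positivity) hgℓ
  have hg0 : 0 < g := by exact_mod_cast hgR
  have hXS : X ⊆ S := Finset.filter_subset _ _
  have hZS : Z ⊆ S := Finset.filter_subset _ _
  have hcop : ∀ q : ℕ, q.Prime → (q ∉ SM) → q.Coprime M := by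
    intro q hq hqM
    rw [hM]
    apply Nat.Coprime.prod_right
    intro p hp
    apply Nat.Coprime.pow_right
    rw [Nat.coprime_primes hq (hSp p (Finset.mem_filter.mp hp).1)]
    intro h
    exact hqM (h ▸ hp)
  -- the bound
  have key := root_bound T X Z (fun p hp => hSp p (hXS hp)) (fun p hp => hSp p (hZS hp)) R hRp hRinj
    hRX (fun t ht' h => hRS t ht' (hZS h)) M
    (fun p hp => hcop p (hSp p (hXS hp)) (fun h => by
      rw [hX, Finset.mem_filter] at hp
      rw [hSM, Finset.mem_filter] at h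
      exact hll (hp.2.symm.trans h.2)))
    (fun p hp => hcop p (hSp p (hZS hp)) (fun h => by
      rw [hZ, Finset.mem_filter] at hp
      rw [hSM, Finset.mem_filter] at h
      exact hml.2 (hp.2.symm.trans h.2)))
    (fun t ht' => hcop (R t) (hRp t ht') (fun h => hRS t ht' (Finset.mem_filter.mp h).1))
    ex g hg0 (sg2 l m') (sg2_sq l m') hdiv (4 * ∏ p ∈ S, p)
    (Nat.mul_pos (by norm_num) (Finset.prod_pos (fun p hp => (hSp p hp).pos)))
    (Dvd.intro _ rfl) (by
      intro p hp hpM
      rw [hM] at hpM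
      obtain ⟨q, hq, hqd⟩ := (hp.prime.dvd_finsetProd_iff _).mp hpM
      have hqS := (Finset.mem_filter.mp hq).1
      have := (Nat.prime_dvd_prime_iff_eq hp (hSp q hqS)).mp (hp.dvd_of_dvd_pow hqd)
      rw [this]
      exact Dvd.dvd.mul_left (Finset.dvd_prod_of_mem (fun p => p) hqS) _)
    ℓ ((1 + δ / 4) * ht t0) (by
      intro t ht'
      have h1 := log_comp_le (hI t ht') l
      rw [hcompl t ht'] at h1
      push_cast at h1
      have hRp' : (0 : ℝ) < R t := by exact_mod_cast (hRp t ht').pos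
      have hpp : ∀ p ∈ X, (p : ℝ) ^ ex t p ≠ 0 := fun p hp => by
        have : (0 : ℝ) < p := by exact_mod_cast (hSp p (hXS hp)).pos
        positivity
      rw [Real.log_mul (by positivity) (Finset.prod_ne_zero_iff.mpr hpp), Real.log_pow,
        Real.log_prod hpp] at h1
      have h2 : ∑ p ∈ X, Real.log ((p : ℝ) ^ ex t p) = ∑ p ∈ X, (ex t p : ℝ) * Real.log p :=
        Finset.sum_congr rfl (fun p _ => Real.log_pow _ _)
      rw [h2] at h1
      exact h1.trans (hratio t ht')) (by
      intro t ht'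
      have h1 := log_comp_le (hI t ht') m'
      rw [hcompm t ht'] at h1
      push_cast at h1
      have hpp : ∀ p ∈ Z, (p : ℝ) ^ ex t p ≠ 0 := fun p hp => by
        have : (0 : ℝ) < p := by exact_mod_cast (hSp p (hZS hp)).pos
        positivity
      rw [Real.log_prod hpp] at h1
      have h2 : ∑ p ∈ Z, Real.log ((p : ℝ) ^ ex t p) = ∑ p ∈ Z, (ex t p : ℝ) * Real.log p :=
        Finset.sum_congr rfl (fun p _ => Real.log_pow _ _)
      rw [h2] at h1
      exact h1.trans (hratio t ht')) (by
      -- the size of M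
      have hlogM : 7 / 8 * δ * ht t0 ≤ Real.log M := by
        have e1 : Real.log M = ∑ p ∈ SM, (m p : ℝ) * Real.log p := by
          rw [hM]
          push_cast
          rw [Real.log_prod (fun p hp => by
            have : (0 : ℝ) < p := by exact_mod_cast (hSp p (Finset.mem_filter.mp hp).1).pos
            positivity)]
          exact Finset.sum_congr rfl (fun p _ => Real.log_pow _ _)
        rw [e1]
        have hterm : ∀ p ∈ SM, u t0 p * ht t0 - 1 / (K * S.card) * ht t0 ≤
            (m p : ℝ) * Real.log p := by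
          intro p hp
          have hpS := (Finset.mem_filter.mp hp).1
          have hScard : (0 : ℝ) < S.card := by exact_mod_cast Finset.card_pos.mpr ⟨p, hpS⟩
          obtain ⟨t, ht', hmt⟩ := Finset.exists_mem_eq_inf' hne (fun t => ex t p)
          have hmt' : m p = ex t p := hmt
          rw [hmt']
          have e4 : (ex t p : ℝ) * Real.log p = u t p * ht t := by
            have := ht_pos (hI t ht')
            unfold u
            field_simp
          rw [e4]
          have h3 := abs_sub_le_of_floor_eq (u_nonneg (hI t ht') p) (u_nonneg (hI t0 ht0) p)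
            (by positivity) (hpt t ht' p hpS).2
          have h4 := (abs_le.mp h3).1
          have h5 := u_nonneg (hI t ht') p
          have h6 := hmin t ht'
          calc u t0 p * ht t0 - 1 / (K * S.card) * ht t0 =
              (u t0 p - 1 / (K * S.card)) * ht t0 := by ring
            _ ≤ u t p * ht t0 := mul_le_mul_of_nonneg_right (by linarith) H0.le
            _ ≤ u t p * ht t := mul_le_mul_of_nonneg_left h6 h5
        refine le_trans ?_ (Finset.sum_le_sum hterm)
        rw [Finset.sum_sub_distrib, Finset.sum_const, nsmul_eq_mul, ← Finset.sum_mul]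
        have h7 : (SM.card : ℝ) * (1 / (K * S.card) * ht t0) ≤ δ / 8 * ht t0 := by
          rcases S.eq_empty_or_nonempty with hSe | hSne
          · rw [hSM, hSe]
            simp
            positivity
          · have hScard : (0 : ℝ) < S.card := by exact_mod_cast hSne.card_pos
            have hle : (SM.card : ℝ) ≤ S.card := by
              exact_mod_cast Finset.card_le_card (Finset.filter_subset _ _)
            calc (SM.card : ℝ) * (1 / (K * S.card) * ht t0) ≤
                S.card * (1 / (K * S.card) * ht t0) :=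
                  mul_le_mul_of_nonneg_right hle (by positivity)
              _ = 1 / K * ht t0 := by field_simp
              _ ≤ δ / 8 * ht t0 := mul_le_mul_of_nonneg_right hK1 H0.le
        have h8 := mul_le_mul_of_nonneg_right (hw t0 ht0) H0.le
        have h9 : (∑ p ∈ SM, u t0 p) * ht t0 =
            (∑ p ∈ S.filter (fun p => lab t0 p = l'), u t0 p) * ht t0 := rfl
        rw [h9]
        linarith
      have hgle : (g : ℝ) ≤ 2 * ht t0 := by
        have h1 := log_comp_le (hI t0 ht0) l
        have hdv : R t0 ^ g ∣ comp t0 l := by rw [hcompl t0 ht0]; exact Dvd.intro _ rfl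
        have h2 := Nat.le_of_dvd (comp_pos (hI t0 ht0) l) hdv
        have h3 : 2 ^ g ≤ comp t0 l := (Nat.pow_le_pow_left (hRp t0 ht0).two_le g).trans h2
        have h4 : Real.log ((2 : ℝ) ^ g) ≤ Real.log (comp t0 l) := by
          apply Real.log_le_log (by positivity)
          exact_mod_cast h3
        rw [Real.log_pow] at h4
        have hl2' : 1 / 2 ≤ Real.log 2 := by linarith [Real.log_two_gt_d9]
        nlinarith
      have hb0 := hbig t0 ht0
      have hb1 : 128 ≤ δ ^ 2 * ht t0 := by
        rw [div_le_iff₀ (by positivity)] at hb0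
        linarith
      have hlogg : Real.log g ≤ δ / 4 * ht t0 := by
        have h1 : Real.log g ≤ Real.log (2 * ht t0) := Real.log_le_log hgR hgle
        have h2 : Real.log (2 * ht t0) = Real.log (δ * ht t0 / 8) + Real.log (16 / δ) := by
          rw [← Real.log_mul (by positivity) (by positivity)]
          congr 1
          field_simp
          ring
        have h3 := Real.log_le_sub_one_of_pos (show 0 < δ * ht t0 / 8 by positivity)
        have h4 := Real.log_le_sub_one_of_pos (show 0 < 16 / δ by positivity)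
        have h5 : 16 / δ ≤ δ * ht t0 / 8 := by
          rw [div_le_iff₀ hδ]
          nlinarith
        linarith
      have hlterm : 2 * (ℓ : ℝ) * ((1 + δ / 4) * ht t0) / g ≤ δ / 4 * ht t0 := by
        rw [div_le_iff₀ hgR]
        have h1 : 10 * (ℓ : ℝ) ≤ δ * g := by
          have := hgℓ
          rw [div_mul_eq_mul_div, div_le_iff₀ hδ] at this
          linarith
        have h2 : 2 * (ℓ : ℝ) * ((1 + δ / 4) * ht t0) ≤ 2 * (ℓ : ℝ) * (5 / 4 * ht t0) := by
          gcongr
          linarith
        have h3 : 10 * (ℓ : ℝ) * ht t0 ≤ δ * g * ht t0 := mul_le_mul_of_nonneg_right h1 H0.le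
        linarith
      nlinarith [mul_pos hδ H0])
  refine key.trans ?_
  apply Nat.mul_le_mul_right
  apply Nat.pow_le_pow_right hg0
  exact Finset.card_le_card (Finset.union_subset hXS hZS)

end Pool.Agent.Lib.Pabc6
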