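import Mathlib
import Pool.Agent.Lib.Pabc6.Mix

open Finset Filter Topology

namespace Pool.Agent.Lib.Pabc6

open Pool.Agent.Lib.Pabc1 Pool.Agent.Lib.Pabc2

/-- The data of a mixed decomposition of the radical: a free prime `R`, the known part `S`, the
rest in the component `l'`, whose known part has weight at least `δ`. -/
structure MixD (δ : ℝ) (R : ℕ) (S : Finset ℕ) (l' : Fin 3) (t : ℕ × ℕ) : Prop where
  h : IsT t
  hR : R ∈ (N t).primeFactors
  hS : S ⊆ (N t).primeFactors.erase R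
  hl : lab t R ≠ l'
  hout : ∀ p ∈ (N t).primeFactors, p ≠ R → p ∉ S → lab t p = l'
  hw : δ ≤ ∑ p ∈ S.filter (fun p => lab t p = l'), u t p
  big : 128 / δ ^ 2 ≤ ht t

theorem MixD.good {δ : ℝ} (hδ : 0 < δ) (hδ1 : δ ≤ 1) {R : ℕ} {S : Finset ℕ} {l' : Fin 3}
    {t : ℕ × ℕ} (h : MixD δ R S l' t) : GoodD δ (insert R S) t := by
  have hH := ht_pos h.h
  have hRS : R ∉ S := fun hm => (Finset.mem_erase.mp (h.hS hm)).1 rfl
  have hsub : insert R S ⊆ (N t).primeFactors := by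
    intro p hp
    rcases Finset.mem_insert.mp hp with rfl | hp
    · exact h.hR
    · exact Finset.mem_of_mem_erase (h.hS hp)
  refine ⟨h.h, hsub, ?_, ?_⟩
  · -- the mass of the unknown part
    rw [← sum_u_eq h.h, ← Finset.sum_sdiff hsub]
    have h1 : ∑ p ∈ (N t).primeFactors \ insert R S, u t p +
        ∑ p ∈ S.filter (fun p => lab t p = l'), u t p ≤ 1 := by
      rw [← Finset.sum_union]
      · have hsub2 : ((N t).primeFactors \ insert R S) ∪ S.filter (fun p => lab t p = l') ⊆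
            (N t).primeFactors.filter (fun p => lab t p = l') := by
          intro p hp
          rcases Finset.mem_union.mp hp with hp | hp
          · rw [Finset.mem_sdiff, Finset.mem_insert, not_or] at hp
            exact Finset.mem_filter.mpr ⟨hp.1, h.hout p hp.1 hp.2.1 hp.2.2⟩
          · rw [Finset.mem_filter] at hp
            exact Finset.mem_filter.mpr ⟨hsub (Finset.mem_insert_of_mem hp.1), hp.2⟩
        refine (Finset.sum_le_sum_of_subset_of_nonneg hsub2 (fun p _ _ => u_nonneg h.h p)).trans ?_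
        have h2 := log_comp_eq h.h l'
        have h3 := log_comp_le h.h l'
        rw [h2] at h3
        have e : ∑ p ∈ (N t).primeFactors.filter (fun p => lab t p = l'), u t p =
            (∑ p ∈ (N t).primeFactors.filter (fun p => lab t p = l'),
              (ex t p : ℝ) * Real.log p) / ht t := by
          unfold u
          rw [Finset.sum_div]
        rw [e, div_le_one hH]
        exact h3
      · rw [Finset.disjoint_left]
        intro p hp hp2
        rw [Finset.mem_sdiff] at hp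
        exact hp.2 (Finset.mem_insert_of_mem (Finset.mem_filter.mp hp2).1)
    have h2 := h.hw
    linarith
  · refine le_trans ?_ h.big
    rw [div_le_div_iff₀ hδ (by positivity)]
    nlinarith

/-- A transversal for a map. -/
theorem exists_transversal {α β : Type*} [Nonempty α] [DecidableEq α] [DecidableEq β] (T : Finset α) (R : α → β) :
    ∃ T' ⊆ T, Set.InjOn R (T' : Set α) ∧ T'.card = (T.image R).card := by
  classical
  have hex : ∀ b ∈ T.image R, ∃ a ∈ T, R a = b := by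
    intro b hb
    rw [Finset.mem_image] at hb
    exact hb
  choose! f hf using hex
  refine ⟨(T.image R).image f, ?_, ?_, ?_⟩
  · intro a ha
    rw [Finset.mem_image] at ha
    obtain ⟨b, hb, rfl⟩ := ha
    exact (hf b hb).1
  · intro a ha a' ha' h
    rw [Finset.mem_coe, Finset.mem_image] at ha ha'
    obtain ⟨b, hb, rfl⟩ := ha
    obtain ⟨b', hb', rfl⟩ := ha'
    rw [(hf b hb).2, (hf b' hb').2] at h
    rw [h]
  · apply Finset.card_image_of_injOn
    intro b hb b' hb' h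
    have h' : f b = f b' := h
    rw [← (hf b hb).2, ← (hf b' hb').2, h']

/-- Analytic form of the binomial bound. -/
theorem choose_analytic (n : ℕ) (θ : ℝ) (hθ : 0 ≤ θ) (hn : 4 ≤ Real.log n) (m s g P : ℕ)
    (hs : (s : ℝ) ≤ 3 / 2 * Real.log n) (hP : P ≤ n) (hg1 : 1 ≤ g) (hg : (g : ℝ) ≤ 2 * (n : ℝ) ^ θ)
    (K : ℝ) (hK : 0 < K)
    (h : m.choose ⌈K * Real.log n⌉₊ ≤ g ^ s * (4 * P) ^ 2) :
    (m : ℝ) ≤ 2 * ⌈K * Real.log n⌉₊ * (n : ℝ) ^ (2 * (θ + 1) / K) := by
  set x := Real.log (n : ℝ) with hx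
  set ℓ := ⌈K * x⌉₊ with hℓ
  have hx0 : 0 < x := by linarith
  have hn0 : (0 : ℝ) < n := by
    rcases Nat.eq_zero_or_pos n with h | h
    · rw [h] at hx
      simp at hx
      linarith
    · exact_mod_cast h
  have hℓ1 : 1 ≤ ℓ := by
    rw [hℓ, Nat.one_le_ceil_iff]
    positivity
  have hℓ0 : (0 : ℝ) < ℓ := by exact_mod_cast hℓ1
  have hℓge : K * x ≤ ℓ := Nat.le_ceil _
  have hg1' : (1 : ℝ) ≤ g := by exact_mod_cast hg1
  have hlogg : Real.log g ≤ 7 / 10 + θ * x := by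
    have h1 : Real.log g ≤ Real.log (2 * (n : ℝ) ^ θ) := Real.log_le_log (by linarith) hg
    rw [Real.log_mul (by norm_num) (by positivity), Real.log_rpow hn0] at h1
    have := log_two_bd
    linarith
  have hlog0 : 0 ≤ Real.log (g : ℝ) := Real.log_nonneg hg1'
  have hexp : (m.choose ℓ : ℝ) ≤ Real.exp (ℓ * (2 * (θ + 1) / K * x)) := by
    have h1 : (m.choose ℓ : ℝ) ≤ (g : ℝ) ^ s * (4 * n) ^ 2 := by
      calc (m.choose ℓ : ℝ) ≤ (g : ℝ) ^ s * (4 * (P : ℝ)) ^ 2 := by exact_mod_cast h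
        _ ≤ (g : ℝ) ^ s * (4 * n) ^ 2 := by
            have : (P : ℝ) ≤ n := by exact_mod_cast hP
            gcongr
    refine h1.trans ?_
    rw [← Real.log_le_iff_le_exp (by positivity), Real.log_mul (by positivity) (by positivity),
      Real.log_pow, Real.log_pow, Real.log_mul (by norm_num) hn0.ne', ← hx]
    have h4 : Real.log 4 ≤ 14 / 10 := by
      have : Real.log 4 = 2 * Real.log 2 := by
        rw [show (4 : ℝ) = 2 ^ 2 by norm_num, Real.log_pow]; norm_num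
      have := log_two_bd
      linarith
    have h5 : (s : ℝ) * Real.log g ≤ 3 / 2 * x * (7 / 10 + θ * x) := by
      apply mul_le_mul hs hlogg hlog0 (by positivity)
    have h6 : 2 * (θ + 1) * x * x ≤ ℓ * (2 * (θ + 1) / K * x) := by
      have : ℓ * (2 * (θ + 1) / K * x) = (ℓ / K) * (2 * (θ + 1) * x) := by field_simp
      rw [this]
      have h7 : x ≤ ℓ / K := by
        rw [le_div_iff₀ hK]
        linarith
      calc 2 * (θ + 1) * x * x = x * (2 * (θ + 1) * x) := by ring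
        _ ≤ (ℓ / K) * (2 * (θ + 1) * x) := mul_le_mul_of_nonneg_right h7 (by positivity)
    refine le_trans ?_ h6
    have h8 : (4 : ℝ) * x ≤ x * x := by nlinarith
    have h9 : 0 ≤ θ * x * x := by positivity
    push_cast
    nlinarith
  have hΛ : 0 ≤ 2 * (θ + 1) / K * x := by positivity
  have h9 := card_le_of_choose_le hℓ1 hΛ hexp
  have h10 : Real.exp (2 * (θ + 1) / K * x) = (n : ℝ) ^ (2 * (θ + 1) / K) := by
    rw [Real.rpow_def_of_pos hn0, mul_comm, hx]
  rw [h10] at h9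
  exact h9

theorem card_prod_bound {S : Finset ℕ} (hSp : ∀ p ∈ S, p.Prime) {n : ℕ}
    (h : ∏ p ∈ S, p ≤ n) : (S.card : ℝ) ≤ 3 / 2 * Real.log n := by
  have h1 : 2 ^ S.card ≤ ∏ p ∈ S, p := Finset.pow_card_le_prod S _ 2 (fun p hp => (hSp p hp).two_le)
  have h2 : Real.log ((2 : ℝ) ^ S.card) ≤ Real.log n := by
    apply Real.log_le_log (by positivity)
    exact_mod_cast h1.trans h
  rw [Real.log_pow] at h2
  have hl2' : 69 / 100 ≤ Real.log 2 := by linarith [Real.log_two_gt_d9]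
  have : (0 : ℝ) ≤ S.card := Nat.cast_nonneg _
  nlinarith

theorem ex_le_two_ht {t : ℕ × ℕ} (h : IsT t) {R : ℕ} (hR : R ∈ (N t).primeFactors) :
    (ex t R : ℝ) ≤ 2 * ht t := by
  have hRp := Nat.prime_of_mem_primeFactors hR
  have h1 := log_comp_le h (lab t R)
  have hdv := comp_dvd h hRp
  have h2 := Nat.le_of_dvd (comp_pos h _) hdv
  have h3 : 2 ^ ex t R ≤ comp t (lab t R) := (Nat.pow_le_pow_left hRp.two_le _).trans h2
  have h4 : Real.log ((2 : ℝ) ^ ex t R) ≤ Real.log (comp t (lab t R)) := by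
    apply Real.log_le_log (by positivity)
    exact_mod_cast h3
  rw [Real.log_pow] at h4
  have h6 : (0 : ℝ) ≤ ex t R := Nat.cast_nonneg _
  have hl2' : 69 / 100 ≤ Real.log 2 := by linarith [Real.log_two_gt_d9]
  nlinarith

theorem rd_pos (t : ℕ × ℕ) : 0 < rd t :=
  Finset.prod_pos (fun _ hq => (Nat.prime_of_mem_primeFactors hq).pos)

theorem prod_le_rd {t : ℕ × ℕ} {S : Finset ℕ} (hS : S ⊆ (N t).primeFactors) :
    ∏ p ∈ S, p ≤ rd t := by
  unfold rd
  apply Finset.prod_le_prod_of_subset_of_one_le' hS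
  intro p hp _
  exact (Nat.prime_of_mem_primeFactors hp).one_lt.le

/-- Triples with a given known part `S`. -/
theorem mix_fibre {δ : ℝ} (hδ : 0 < δ) (hδ1 : δ ≤ 1) {K : ℕ} (hK : 8 / δ ≤ K)
    (n : ℕ) (θ : ℝ) (hθ : 0 ≤ θ) (hn : 4 ≤ Real.log n)
    (S : Finset ℕ) (T : Finset (ℕ × ℕ)) (R : ℕ × ℕ → ℕ) (l' : ℕ × ℕ → Fin 3)
    (hT : ∀ t ∈ T, MixD δ (R t) S (l' t) t)
    (hrd : ∀ t ∈ T, rd t ≤ n) (hht : ∀ t ∈ T, ht t ≤ (n : ℝ) ^ θ)
    (K1 : ℝ) (hK1 : 0 < K1) (hg : ∀ t ∈ T, 10 / δ * ⌈K1 * Real.log n⌉₊ ≤ ex t (R t)) :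
    (T.card : ℝ) ≤ (2 * ⌈K1 * Real.log n⌉₊ * (n : ℝ) ^ (2 * (θ + 1) / K1)) *
      ((K + 1) * (θ * Real.log n / Real.log (1 + δ / 4) + 1)) ^ 2 * (9 * (2 * (n : ℝ) ^ θ + 1)) *
        (BconD K * (BconD K ^ 2) ^ S.card) := by
  classical
  set x := Real.log (n : ℝ) with hx
  have hx0 : 0 < x := by linarith
  have hn0' : 0 < n := by
    rcases Nat.eq_zero_or_pos n with h | h
    · rw [h] at hx
      simp at hx
      linarith
    · exact h
  have hn0 : (0 : ℝ) < n := by exact_mod_cast hn0'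
  have hn1' : (1 : ℝ) ≤ n := by exact_mod_cast hn0'
  have hnθ1 : 1 ≤ (n : ℝ) ^ θ := Real.one_le_rpow hn1' hθ
  set B0 : ℝ := 2 * ⌈K1 * x⌉₊ * (n : ℝ) ^ (2 * (θ + 1) / K1) with hB0
  have hB00 : 0 ≤ B0 := by positivity
  have hlδ : 0 < Real.log (1 + δ / 4) := Real.log_pos (by linarith)
  set D0 : ℝ := (K + 1) * (θ * x / Real.log (1 + δ / 4) + 1) with hD0
  have hD00 : 0 ≤ D0 := by positivity
  set L : ℕ := ⌊θ * x / Real.log (1 + δ / 4)⌋₊ with hL
  set G : ℕ := ⌊2 * (n : ℝ) ^ θ⌋₊ with hG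
  have hK0 : (0 : ℝ) < K := lt_of_lt_of_le (by positivity) hK
  have hlogH : Real.log ((n : ℝ) ^ θ) = θ * x := Real.log_rpow hn0 θ
  -- the classes
  set f : ℕ × ℕ → ((p : ℕ) → p ∈ S → Fin 3 × ℕ) × (ℕ × ℕ) × ℕ × (Fin 3 × Fin 3) :=
    fun t => (codeD K S t, codeH K δ t, ex t (R t), (lab t (R t), l' t)) with hf
  set C1 := T.image (codeD K S) with hC1
  have hgle : ∀ t ∈ T, (ex t (R t) : ℝ) ≤ 2 * (n : ℝ) ^ θ := by
    intro t ht'
    have h1 := ex_le_two_ht (hT t ht').h (hT t ht').hR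
    have h2 := hht t ht'
    linarith
  -- each class
  have hclass : ∀ c ∈ T.image f, ((T.filter (fun a => f a = c)).card : ℝ) ≤
      B0 * (D0 * BconD K ^ (S.card + 1)) := by
    intro c hc
    rw [Finset.mem_image] at hc
    obtain ⟨t0, ht0, rfl⟩ := hc
    set Tc := T.filter (fun a => f a = f t0) with hTc
    have hm : ∀ t ∈ Tc, t ∈ T ∧ f t = f t0 := by
      intro t h
      rwa [hTc, Finset.mem_filter] at h
    have hmf : ∀ t ∈ Tc, codeD K S t = codeD K S t0 ∧ codeH K δ t = codeH K δ t0 ∧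
        ex t (R t) = ex t0 (R t0) ∧ lab t (R t) = lab t0 (R t0) ∧ l' t = l' t0 := by
      intro t h
      have := (hm t h).2
      simp only [hf, Prod.mk.injEq] at this
      exact this
    obtain ⟨T', hT'sub, hT'inj, hT'card⟩ := exists_transversal Tc R
    have hm' : ∀ t ∈ T', t ∈ Tc := fun t h => hT'sub h
    -- number of different `R`
    have hR1 : ((Tc.image R).card : ℝ) ≤ B0 := by
      rw [← hT'card]
      have hℓ1 : 1 ≤ ⌈K1 * x⌉₊ := by
        rw [Nat.one_le_ceil_iff]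
        positivity
      have hSp : ∀ p ∈ S, p.Prime := fun p hp =>
        Nat.prime_of_mem_primeFactors (Finset.mem_of_mem_erase ((hT t0 ht0).hS hp))
      have hPn : ∏ p ∈ S, p ≤ n :=
        (prod_le_rd ((hT t0 ht0).hS.trans (Finset.erase_subset _ _))).trans (hrd t0 ht0)
      have key := mix_class_bound hδ hδ1 hK S T' R (ex t0 (R t0)) (lab t0 (R t0)) (l' t0)
        (hT t0 ht0).hl
        (fun t h => (hT t (hm t (hm' t h)).1).h)
        (fun t h => (hT t (hm t (hm' t h)).1).hR) hT'inj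
        (fun t h => (hT t (hm t (hm' t h)).1).hS)
        (fun t h => by
          have := (hT t (hm t (hm' t h)).1).hout
          rwa [(hmf t (hm' t h)).2.2.2.2] at this)
        (fun t h => (hmf t (hm' t h)).2.2.1)
        (fun t h => (hmf t (hm' t h)).2.2.2.1)
        (fun t h t' h' => by rw [(hmf t (hm' t h)).1, (hmf t' (hm' t' h')).1])
        (fun t h t' h' => by rw [(hmf t (hm' t h)).2.1, (hmf t' (hm' t' h')).2.1])
        (fun t h => by
          have := (hT t (hm t (hm' t h)).1).hw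
          rwa [(hmf t (hm' t h)).2.2.2.2] at this)
        ⌈K1 * x⌉₊ hℓ1 (hg t0 ht0)
        (fun t h => (hT t (hm t (hm' t h)).1).big)
      have hg1 : 1 ≤ ex t0 (R t0) := by
        have h1 := hg t0 ht0
        have h2 : (0 : ℝ) < ex t0 (R t0) := by
          refine lt_of_lt_of_le ?_ h1
          have : (0 : ℝ) < (⌈K1 * x⌉₊ : ℝ) := by exact_mod_cast hℓ1
          positivity
        have h3 : 0 < ex t0 (R t0) := by exact_mod_cast h2
        exact h3
      exact choose_analytic n θ hθ hn T'.card S.card (ex t0 (R t0)) (∏ p ∈ S, p)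
        (card_prod_bound hSp hPn) hPn hg1 (hgle t0 ht0) K1 hK1 key
    -- for each `R`
    have hR2 : ∀ r ∈ Tc.image R, ((Tc.filter (fun t => R t = r)).card : ℝ) ≤
        D0 * BconD K ^ (S.card + 1) := by
      intro r hr
      rw [Finset.mem_image] at hr
      obtain ⟨t1, ht1, rfl⟩ := hr
      have hRS : R t1 ∉ S := fun hmem =>
        (Finset.mem_erase.mp ((hT t1 (hm t1 ht1).1).hS hmem)).1 rfl
      have h1 := card_goodD_le hδ hδ1 hK ((n : ℝ) ^ θ) hnθ1 (insert (R t1) S)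
        (Tc.filter (fun t => R t = R t1)) (by
          intro t h
          rw [Finset.mem_filter] at h
          have h2 := hT t (hm t h.1).1
          have h3 := h2.good hδ hδ1
          rw [h.2] at h3
          exact ⟨h3, hht t (hm t h.1).1⟩)
      rw [hlogH, Finset.card_insert_of_notMem hRS] at h1
      exact h1
    have h3 : (Tc.card : ℝ) ≤ (Tc.image R).card * (D0 * BconD K ^ (S.card + 1)) := by
      rw [Finset.card_eq_sum_card_fiberwise (f := R) (t := Tc.image R)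
        (fun t ht => Finset.mem_image_of_mem _ ht)]
      push_cast
      calc ∑ r ∈ Tc.image R, ((Tc.filter (fun t => R t = r)).card : ℝ) ≤
          ∑ _r ∈ Tc.image R, D0 * BconD K ^ (S.card + 1) := Finset.sum_le_sum hR2
        _ = _ := by rw [Finset.sum_const, nsmul_eq_mul]
    have hBp : 0 ≤ D0 * BconD K ^ (S.card + 1) := mul_nonneg hD00 (pow_nonneg (BconD_pos K).le _)
    exact h3.trans (mul_le_mul_of_nonneg_right hR1 hBp)
  have h1 : (T.card : ℝ) ≤ (T.image f).card * (B0 * (D0 * BconD K ^ (S.card + 1))) := by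
    rw [Finset.card_eq_sum_card_fiberwise (f := f) (t := T.image f)
      (fun t ht => Finset.mem_image_of_mem _ ht)]
    push_cast
    calc ∑ c ∈ T.image f, ((T.filter (fun a => f a = c)).card : ℝ) ≤
        ∑ _c ∈ T.image f, B0 * (D0 * BconD K ^ (S.card + 1)) := Finset.sum_le_sum hclass
      _ = _ := by rw [Finset.sum_const, nsmul_eq_mul]
  have h2 : (T.image f) ⊆ C1 ×ˢ ((Finset.range (K + 1) ×ˢ Finset.range (L + 1)) ×ˢ
      (Finset.range (G + 1) ×ˢ ((Finset.univ : Finset (Fin 3)) ×ˢ (Finset.univ : Finset (Fin 3))))) := by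
    intro c hc
    rw [Finset.mem_image] at hc
    obtain ⟨t, ht', rfl⟩ := hc
    have hh0 := ht_pos (hT t ht').h
    simp only [Finset.mem_product, hf]
    refine ⟨Finset.mem_image_of_mem _ ht', ⟨?_, ?_⟩, ?_, Finset.mem_univ _, Finset.mem_univ _⟩
    · rw [Finset.mem_range, Nat.lt_succ_iff]
      simp only [codeH]
      have ha := al_le_one (hT t ht').h
      apply Nat.floor_le_of_le
      nlinarith
    · rw [Finset.mem_range, Nat.lt_succ_iff]
      simp only [codeH]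
      rw [hL]
      apply Nat.floor_le_floor
      apply div_le_div_of_nonneg_right _ hlδ.le
      calc Real.log (ht t) ≤ Real.log ((n : ℝ) ^ θ) := Real.log_le_log hh0 (hht t ht')
        _ = θ * x := hlogH
    · rw [Finset.mem_range, Nat.lt_succ_iff]
      apply Nat.le_floor
      exact hgle t ht'
  have h3 : ((T.image f).card : ℝ) ≤ C1.card * (((K + 1) * (L + 1)) * ((G + 1) * (3 * 3))) := by
    have := Finset.card_le_card h2
    rw [Finset.card_product, Finset.card_product, Finset.card_product, Finset.card_product,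
      Finset.card_product, Finset.card_range, Finset.card_range, Finset.card_range,
      Finset.card_univ, Fintype.card_fin] at this
    exact_mod_cast this
  have hSsub : ∀ t ∈ T, S ⊆ (N t).primeFactors := fun t ht' =>
    (hT t ht').hS.trans (Finset.erase_subset _ _)
  have h4 : (C1.card : ℝ) ≤ BconD K ^ S.card := by
    apply card_codesD_le
    intro c hc
    rw [hC1, Finset.mem_image] at hc
    obtain ⟨t, ht', rfl⟩ := hc
    simp only [codeD]
    rw [Finset.sum_attach S (fun p => ⌊u t p * (K * S.card)⌋₊)]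
    have hu := sum_u_le (hT t ht').h (hSsub t ht')
    have h5 : ((∑ p ∈ S, ⌊u t p * (K * S.card)⌋₊ : ℕ) : ℝ) ≤ 3 * K * S.card := by
      push_cast
      calc ∑ p ∈ S, (⌊u t p * (K * S.card)⌋₊ : ℝ) ≤ ∑ p ∈ S, u t p * (K * S.card) := by
            apply Finset.sum_le_sum
            intro p _
            apply Nat.floor_le
            have := u_nonneg (hT t ht').h p
            positivity
        _ = (∑ p ∈ S, u t p) * (K * S.card) := by rw [Finset.sum_mul]
        _ ≤ 3 * (K * S.card) := by gcongr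
        _ = 3 * K * S.card := by ring
    exact_mod_cast h5
  have hLle : (L : ℝ) ≤ θ * x / Real.log (1 + δ / 4) := Nat.floor_le (by positivity)
  have hGle : (G : ℝ) ≤ 2 * (n : ℝ) ^ θ := Nat.floor_le (by positivity)
  have hBp : 0 ≤ BconD K ^ S.card := pow_nonneg (BconD_pos K).le _
  have hBp1 : 0 ≤ BconD K ^ (S.card + 1) := pow_nonneg (BconD_pos K).le _
  calc (T.card : ℝ) ≤ (T.image f).card * (B0 * (D0 * BconD K ^ (S.card + 1))) := h1
    _ ≤ (C1.card * (((K + 1) * (L + 1)) * ((G + 1) * (3 * 3)))) *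
        (B0 * (D0 * BconD K ^ (S.card + 1))) := by gcongr
    _ ≤ (BconD K ^ S.card * (((K + 1) * (θ * x / Real.log (1 + δ / 4) + 1)) *
        ((2 * (n : ℝ) ^ θ + 1) * (3 * 3)))) * (B0 * (D0 * BconD K ^ (S.card + 1))) := by gcongr
    _ = _ := by
        rw [hD0]
        ring

/-- Mertens in the form needed. -/
theorem mert_bound (n : ℕ) (B : ℝ) (hB : 0 < B) (h4 : 4 ≤ Real.log n) :
    Real.exp (B * ∑ p ∈ Nat.primesLE n, 1 / (p : ℝ)) ≤ Real.log n ^ (27 * B) := by
  set x := Real.log (n : ℝ) with hx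
  have hx0 : 0 < x := by linarith
  calc Real.exp (B * ∑ p ∈ Nat.primesLE n, 1 / (p : ℝ)) ≤
      Real.exp (B * (9 * (1 + Real.log (1 + x)))) :=
        Real.exp_le_exp.mpr (mul_le_mul_of_nonneg_left (mertens n) hB.le)
    _ ≤ Real.exp (Real.log x * (27 * B)) := by
        apply Real.exp_le_exp.mpr
        have h1 : 1 ≤ Real.log x := by
          rw [Real.le_log_iff_exp_le hx0]
          linarith [Real.exp_one_lt_d9]
        have h2 : Real.log (1 + x) ≤ 2 * Real.log x := by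
          rw [← Real.log_rpow hx0]
          apply Real.log_le_log (by linarith)
          rw [show (2 : ℝ) = ((2 : ℕ) : ℝ) by norm_num, Real.rpow_natCast]
          nlinarith
        have h3 : 9 * (1 + Real.log (1 + x)) ≤ 27 * Real.log x := by linarith
        calc B * (9 * (1 + Real.log (1 + x))) ≤ B * (27 * Real.log x) :=
              mul_le_mul_of_nonneg_left h3 hB.le
          _ = Real.log x * (27 * B) := by ring
    _ = x ^ (27 * B) := by rw [Real.rpow_def_of_pos hx0]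

/-- Counting triples with a mixed decomposition. -/
theorem count_mixed (δ θ σ η : ℝ) (hδ : 0 < δ) (hδ1 : δ ≤ 1) (hθ : 0 ≤ θ) (hη : 0 < η) :
    ∃ K : ℝ, 0 < K ∧ ∀ᶠ n : ℕ in atTop, ∀ T : Finset (ℕ × ℕ),
      (∀ t ∈ T, rd t ≤ n ∧ ht t ≤ (n : ℝ) ^ θ ∧
        ∃ R : ℕ, ∃ S : Finset ℕ, ∃ l' : Fin 3, MixD δ R S l' t ∧
          ((∏ p ∈ S, p : ℕ) : ℝ) ≤ (n : ℝ) ^ σ ∧ 10 / δ * ⌈K * Real.log n⌉₊ ≤ ex t R) →
      (T.card : ℝ) ≤ (n : ℝ) ^ (σ + θ + η) := by
  classical
  set K1 : ℝ := 4 * (θ + 1) / η with hK1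
  have hK10 : 0 < K1 := by positivity
  refine ⟨K1, hK10, ?_⟩
  have hKη : 2 * (θ + 1) / K1 = η / 2 := by
    rw [hK1]
    field_simp
    ring
  set K : ℕ := ⌈8 / δ⌉₊ with hKdef
  have hK : 8 / δ ≤ K := Nat.le_ceil _
  have hK0 : (0 : ℝ) < K := lt_of_lt_of_le (by positivity) hK
  set B := BconD K with hB
  have hB0 : 0 < B := BconD_pos K
  have hlδ : 0 < Real.log (1 + δ / 4) := Real.log_pos (by linarith)
  set C0 : ℝ := 2 * (K1 + 1) * ((K + 1) * (θ / Real.log (1 + δ / 4) + 1)) ^ 2 * 27 * B with hC0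
  have hlim : Tendsto (fun n : ℕ => Real.log (n : ℝ)) atTop atTop :=
    Real.tendsto_log_atTop.comp tendsto_natCast_atTop_atTop
  filter_upwards [hlim.eventually (eventually_ge_atTop 4),
    ev_log_pow_le C0 (3 + 27 * B ^ 2) (η / 2) (by positivity), eventually_ge_atTop 1] with
    n h4 hlogpow hn1 T hT
  set x := Real.log (n : ℝ) with hx
  have hx0 : 0 < x := by linarith
  have hx1 : 1 ≤ x := by linarith
  have hn0 : (0 : ℝ) < n := by exact_mod_cast hn1
  have hn1' : (1 : ℝ) ≤ n := by exact_mod_cast hn1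
  have hT' : ∀ t ∈ T, ∃ R : ℕ, ∃ S : Finset ℕ, ∃ l' : Fin 3, MixD δ R S l' t ∧
          ((∏ p ∈ S, p : ℕ) : ℝ) ≤ (n : ℝ) ^ σ ∧ 10 / δ * ⌈K1 * Real.log n⌉₊ ≤ ex t R :=
    fun t h => (hT t h).2.2
  choose! R S l' hM using hT'
  set P := Nat.primesLE n with hP
  have hPp : ∀ p ∈ P, p.Prime := fun p hp => (Nat.mem_primesLE.mp hp).2
  have hsubP : ∀ t ∈ T, (N t).primeFactors ⊆ P := by
    intro t htT p hp
    rw [hP, Nat.mem_primesLE]
    refine ⟨le_trans ?_ (hT t htT).1, Nat.prime_of_mem_primeFactors hp⟩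
    exact Nat.le_of_dvd (rd_pos t) (Finset.dvd_prod_of_mem (fun p => p) hp)
  set F := P.powerset.filter (fun S => ((∏ p ∈ S, p : ℕ) : ℝ) ≤ (n : ℝ) ^ σ) with hF
  set A0 : ℝ := (2 * ⌈K1 * x⌉₊ * (n : ℝ) ^ (2 * (θ + 1) / K1)) *
      ((K + 1) * (θ * x / Real.log (1 + δ / 4) + 1)) ^ 2 * (9 * (2 * (n : ℝ) ^ θ + 1)) * B with hA0
  have hA00 : 0 ≤ A0 := by positivity
  have hmapsF : ∀ t ∈ T, S t ∈ F := by
    intro t ht'
    rw [hF, Finset.mem_filter, Finset.mem_powerset]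
    exact ⟨((hM t ht').1.hS.trans (Finset.erase_subset _ _)).trans (hsubP t ht'), (hM t ht').2.1⟩
  have h5 : (T.card : ℝ) ≤ A0 * ∑ S ∈ F, (B ^ 2) ^ S.card := by
    rw [Finset.card_eq_sum_card_fiberwise (f := S) (t := F)
      (fun t ht => hmapsF t ht), Finset.mul_sum]
    push_cast
    apply Finset.sum_le_sum
    intro s _
    have hm : ∀ t ∈ T.filter (fun t => S t = s), t ∈ T ∧ S t = s := by
      intro t h
      rwa [Finset.mem_filter] at h
    have key := mix_fibre hδ hδ1 hK n θ hθ h4 s (T.filter (fun t => S t = s)) R l'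
      (fun t h => by
        have := (hM t (hm t h).1).1
        rwa [(hm t h).2] at this)
      (fun t h => (hT t (hm t h).1).1) (fun t h => (hT t (hm t h).1).2.1) K1 hK10
      (fun t h => (hM t (hm t h).1).2.2)
    rw [← hx, ← hB] at key
    refine key.trans (le_of_eq ?_)
    rw [hA0]
    ring
  have b2 := sum_small P hPp (B ^ 2) ((n : ℝ) ^ σ) (by positivity) (by positivity)
  have hmert : Real.exp (B ^ 2 * ∑ p ∈ P, 1 / (p : ℝ)) ≤ x ^ (27 * B ^ 2) :=
    mert_bound n (B ^ 2) (by positivity) h4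
  have hnθ1 : 1 ≤ (n : ℝ) ^ θ := Real.one_le_rpow hn1' hθ
  have hA0le : A0 ≤ C0 * x ^ (3 : ℝ) * ((n : ℝ) ^ (η / 2) * (n : ℝ) ^ θ) := by
    have h6 : (⌈K1 * x⌉₊ : ℝ) ≤ (K1 + 1) * x := by
      have := (Nat.ceil_lt_add_one (show 0 ≤ K1 * x by positivity)).le
      nlinarith
    have h7 : θ * x / Real.log (1 + δ / 4) + 1 ≤ (θ / Real.log (1 + δ / 4) + 1) * x := by
      have : θ * x / Real.log (1 + δ / 4) = θ / Real.log (1 + δ / 4) * x := by ring
      rw [this]
      nlinarith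
    have h8 : 2 * (n : ℝ) ^ θ + 1 ≤ 3 * (n : ℝ) ^ θ := by linarith
    have h70 : 0 ≤ θ * x / Real.log (1 + δ / 4) + 1 := by positivity
    rw [hA0, hKη]
    calc (2 * (⌈K1 * x⌉₊ : ℝ) * (n : ℝ) ^ (η / 2)) *
        ((K + 1) * (θ * x / Real.log (1 + δ / 4) + 1)) ^ 2 * (9 * (2 * (n : ℝ) ^ θ + 1)) * B ≤
        (2 * ((K1 + 1) * x) * (n : ℝ) ^ (η / 2)) *
        ((K + 1) * ((θ / Real.log (1 + δ / 4) + 1) * x)) ^ 2 * (9 * (3 * (n : ℝ) ^ θ)) * B := by
          gcongr
      _ = C0 * (x * x * x) * ((n : ℝ) ^ (η / 2) * (n : ℝ) ^ θ) := by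
          rw [hC0]
          ring
      _ = C0 * x ^ (3 : ℝ) * ((n : ℝ) ^ (η / 2) * (n : ℝ) ^ θ) := by
          rw [show (3 : ℝ) = ((3 : ℕ) : ℝ) by norm_num, Real.rpow_natCast]
          ring
  have hC00 : 0 ≤ C0 := by positivity
  calc (T.card : ℝ) ≤ A0 * ∑ S ∈ F, (B ^ 2) ^ S.card := h5
    _ ≤ A0 * ((n : ℝ) ^ σ * Real.exp (B ^ 2 * ∑ p ∈ P, 1 / (p : ℝ))) :=
        mul_le_mul_of_nonneg_left b2 hA00
    _ ≤ (C0 * x ^ (3 : ℝ) * ((n : ℝ) ^ (η / 2) * (n : ℝ) ^ θ)) *
        ((n : ℝ) ^ σ * x ^ (27 * B ^ 2)) := by gcongr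
    _ = (C0 * (x ^ (3 : ℝ) * x ^ (27 * B ^ 2))) * ((n : ℝ) ^ (η / 2) * (n : ℝ) ^ θ *
        (n : ℝ) ^ σ) := by ring
    _ = (C0 * x ^ (3 + 27 * B ^ 2)) * ((n : ℝ) ^ (η / 2) * (n : ℝ) ^ θ * (n : ℝ) ^ σ) := by
        rw [Real.rpow_add hx0]
    _ ≤ (n : ℝ) ^ (η / 2) * ((n : ℝ) ^ (η / 2) * (n : ℝ) ^ θ * (n : ℝ) ^ σ) := by
        gcongr
    _ = (n : ℝ) ^ (σ + θ + η) := by
        rw [← Real.rpow_add hn0, ← Real.rpow_add hn0, ← Real.rpow_add hn0]
        congr 1
        ring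

/-- Triples with a light divisor of the radical whose complement is at most `W`. -/
theorem count_light2 (δ A : ℝ) (hδ : 0 < δ) (hδ1 : δ ≤ 1) (hA : 0 ≤ A) :
    ∃ C : ℝ, ∀ᶠ n : ℕ in atTop, ∀ W : ℝ, 0 ≤ W → ∀ T : Finset (ℕ × ℕ),
      (∀ t ∈ T, IsT t ∧ rd t ≤ n ∧ ht t ≤ (n : ℝ) ^ A ∧ 2 / δ ≤ ht t ∧
        ∃ Q ⊆ (N t).primeFactors, ((∏ p ∈ (N t).primeFactors \ Q, p : ℕ) : ℝ) ≤ W ∧
          ∑ p ∈ Q, u t p ≤ 1 - δ) →
      (T.card : ℝ) ≤ W * Real.log n ^ C := by
  classical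
  set K : ℕ := ⌈8 / δ⌉₊ with hKdef
  have hK : 8 / δ ≤ K := Nat.le_ceil _
  have hK0 : (0 : ℝ) < K := lt_of_lt_of_le (by positivity) hK
  set B := BconD K with hB
  have hB0 : 0 < B := BconD_pos K
  set ρ : ℝ := Real.log (1 + δ / 4) with hρ
  have hρ0 : 0 < ρ := Real.log_pos (by linarith)
  refine ⟨2 + 27 * B, ?_⟩
  have hlim : Tendsto (fun n : ℕ => Real.log (n : ℝ)) atTop atTop :=
    Real.tendsto_log_atTop.comp tendsto_natCast_atTop_atTop
  filter_upwards [hlim.eventually (eventually_ge_atTop 4),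
    hlim.eventually (eventually_ge_atTop ((K + 1) * (A / ρ + 1))), eventually_ge_atTop 1] with
    n h4 hnK hn1 W hW T hT
  set x := Real.log (n : ℝ) with hx
  have hx0 : 0 < x := by linarith
  have hx1 : 1 ≤ x := by linarith
  have hn0 : (0 : ℝ) < n := by exact_mod_cast hn1
  have hn1' : (1 : ℝ) ≤ n := by exact_mod_cast hn1
  set P := Nat.primesLE n with hP
  have hPp : ∀ p ∈ P, p.Prime := fun p hp => (Nat.mem_primesLE.mp hp).2
  have hsubP : ∀ t ∈ T, (N t).primeFactors ⊆ P := by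
    intro t htT p hp
    rw [hP, Nat.mem_primesLE]
    refine ⟨le_trans ?_ (hT t htT).2.1, Nat.prime_of_mem_primeFactors hp⟩
    exact Nat.le_of_dvd (rd_pos t) (Finset.dvd_prod_of_mem (fun p => p) hp)
  choose! Q hQs hQz hQu using fun t (h : t ∈ T) => (hT t h).2.2.2.2
  have hH1 : 1 ≤ (n : ℝ) ^ A := Real.one_le_rpow hn1' hA
  have b1 := card_le_sum_of_goodD hδ hδ1 hK ((n : ℝ) ^ A) hH1 T
    (P.powerset.filter (fun S => ((∏ p ∈ S, p : ℕ) : ℝ) ≤ W))
    (fun t => (N t).primeFactors \ Q t) (by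
      intro t h
      rw [Finset.mem_filter, Finset.mem_powerset]
      exact ⟨Finset.sdiff_subset.trans (hsubP t h), hQz t h⟩) (by
      intro t h
      have h1 := (hT t h).1
      refine ⟨⟨h1, Finset.sdiff_subset, ?_, (hT t h).2.2.2.1⟩, (hT t h).2.2.1⟩
      rw [← sum_u_eq h1, ← Finset.sum_sdiff (hQs t h)]
      have := hQu t h
      linarith)
  have b2 := sum_small P hPp B W hB0.le hW
  have hmert : Real.exp (B * ∑ p ∈ P, 1 / (p : ℝ)) ≤ x ^ (27 * B) :=
    mert_bound n B hB0 h4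
  have hlogH : Real.log ((n : ℝ) ^ A) = A * x := Real.log_rpow hn0 A
  rw [hlogH, ← hρ] at b1
  have hfac : ((K : ℝ) + 1) * (A * x / ρ + 1) ≤ x ^ (2 : ℝ) := by
    calc ((K : ℝ) + 1) * (A * x / ρ + 1) ≤ ((K : ℝ) + 1) * (A * x / ρ + x) := by gcongr
      _ = ((K : ℝ) + 1) * (A / ρ + 1) * x := by ring
      _ ≤ x * x := mul_le_mul_of_nonneg_right hnK hx0.le
      _ = x ^ (2 : ℝ) := by
          rw [show (2 : ℝ) = ((2 : ℕ) : ℝ) by norm_num, Real.rpow_natCast]
          ring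
  have hfac0 : 0 ≤ ((K : ℝ) + 1) * (A * x / ρ + 1) := by positivity
  calc (T.card : ℝ) ≤ ((K : ℝ) + 1) * (A * x / ρ + 1) *
      (W * Real.exp (B * ∑ p ∈ P, 1 / (p : ℝ))) :=
        b1.trans (mul_le_mul_of_nonneg_left b2 hfac0)
    _ ≤ x ^ (2 : ℝ) * (W * x ^ (27 * B)) := by gcongr
    _ = W * (x ^ (2 : ℝ) * x ^ (27 * B)) := by ring
    _ = W * x ^ (2 + 27 * B) := by rw [Real.rpow_add hx0]

end Pool.Agent.Lib.Pabc6
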