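import Mathlib
import Pool.Agent.Lib.Pabc2.Final2
import Pool.Agent.Lib.Pabc6.MixCount
import Pool.Agent.Lib.Pabc6.Cover

open Finset Filter Topology

namespace Pool.Agent.Lib.Pabc6

open Pool.Agent.Lib.Pabc1 Pool.Agent.Lib.Pabc2

theorem sum_mb_u {t : ℕ × ℕ} (h : IsT t) (l : Fin 3) :
    ∑ p ∈ mb (N t).primeFactors (lab t) l, u t p = Real.log (comp t l) / ht t := by
  rw [log_comp_eq h l, Finset.sum_div]
  rfl

theorem log_rd (t : ℕ × ℕ) : Real.log (rd t) = ∑ p ∈ (N t).primeFactors, Real.log (p : ℝ) := by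
  unfold rd
  push_cast
  rw [Real.log_prod]
  intro p hp
  exact_mod_cast (Nat.prime_of_mem_primeFactors hp).ne_zero

theorem log_prodset {S : Finset ℕ} (hS : ∀ p ∈ S, p.Prime) :
    Real.log ((∏ p ∈ S, p : ℕ) : ℝ) = ∑ p ∈ S, Real.log (p : ℝ) := by
  push_cast
  rw [Real.log_prod]
  intro p hp
  exact_mod_cast (hS p hp).ne_zero

theorem prod_le_rpow {S : Finset ℕ} (hS : ∀ p ∈ S, p.Prime) {n : ℕ} (hn : 1 ≤ n) {σ : ℝ}
    (h : ∑ p ∈ S, Real.log (p : ℝ) ≤ σ * Real.log n) :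
    ((∏ p ∈ S, p : ℕ) : ℝ) ≤ (n : ℝ) ^ σ := by
  have hn0 : (0 : ℝ) < n := by exact_mod_cast hn
  have hp : (0 : ℝ) < ((∏ p ∈ S, p : ℕ) : ℝ) := by
    exact_mod_cast Finset.prod_pos (fun p hp => (hS p hp).pos)
  rw [← Real.log_le_log_iff hp (Real.rpow_pos_of_pos hn0 σ), Real.log_rpow hn0, log_prodset hS]
  exact h

/-- Every triple of large height is light or mixed. -/
theorem dichotomy {t : ℕ × ℕ} (h : IsT t) {n : ℕ} (hn : 1 ≤ n) (hrd : rd t ≤ n) (k : ℕ) {c δ σ : ℝ}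
    (hδ : 0 < δ) (hc : c = (k : ℝ) + 1) (hk : 4 * c * (4 * c + 1) * δ ≤ 1)
    (hσ : σ = 2 / 3 + 1 / (3 * c)) (hbig : 128 / δ ^ 2 ≤ ht t) (h2 : 2 ≤ ht t) :
    (∃ Q ⊆ (N t).primeFactors, ((∏ p ∈ (N t).primeFactors \ Q, p : ℕ) : ℝ) ≤ (n : ℝ) ^ σ ∧
      ∑ p ∈ Q, u t p ≤ 1 - δ) ∨
    (∃ R : ℕ, ∃ S : Finset ℕ, ∃ l' : Fin 3, MixD δ R S l' t ∧
      ((∏ p ∈ S, p : ℕ) : ℝ) ≤ (n : ℝ) ^ σ ∧ δ < u t R) := by
  classical
  have hH := ht_pos h
  have hk0 : (0 : ℝ) ≤ k := Nat.cast_nonneg k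
  have hc1 : 1 ≤ c := by rw [hc]; linarith
  have hc0 : 0 < c := by linarith
  have hn0 : (0 : ℝ) < n := by exact_mod_cast hn
  have hprime : ∀ p ∈ (N t).primeFactors, p.Prime := fun p hp => Nat.prime_of_mem_primeFactors hp
  have hlogrd : ∑ p ∈ (N t).primeFactors, Real.log (p : ℝ) ≤ Real.log n := by
    rw [← log_rd]
    apply Real.log_le_log
    · exact_mod_cast rd_pos t
    · exact_mod_cast hrd
  have hσc : 3 * c * σ = 2 * c + 1 := by
    rw [hσ]
    field_simp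
  have key := cover_abs (P := (N t).primeFactors) (lb := lab t) (u := u t)
    (s := fun p => Real.log (p : ℝ)) (c := c) (δ := δ) hδ (fun p _ => u_nonneg h p)
    (fun p _ => Real.log_natCast_nonneg p) (by
      intro l
      rw [sum_mb_u h l, div_le_one hH]
      exact log_comp_le h l) (by
      rw [sum_mb_u h 1, comp1, le_div_iff₀ hH]
      have h3 := log_b_ge h
      have h4 := log_two_bd
      linarith) (by
      rw [sum_mb_u h 2, comp2]
      have : Real.log ((t.1 + t.2 : ℕ) : ℝ) = ht t := by unfold ht; push_cast; rfl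
      rw [this, div_self hH.ne']
      norm_num) k hc hk
  have hconv : ∀ A : Finset ℕ, 3 * c * ∑ p ∈ A, Real.log (p : ℝ) ≤
      (2 * c + 1) * ∑ p ∈ (N t).primeFactors, Real.log (p : ℝ) →
      ∑ p ∈ A, Real.log (p : ℝ) ≤ σ * Real.log n := by
    intro A hA
    have h3 : 3 * c * ∑ p ∈ A, Real.log (p : ℝ) ≤ 3 * c * (σ * Real.log n) := by
      calc 3 * c * ∑ p ∈ A, Real.log (p : ℝ) ≤
          (2 * c + 1) * ∑ p ∈ (N t).primeFactors, Real.log (p : ℝ) := hA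
        _ ≤ (2 * c + 1) * Real.log n := mul_le_mul_of_nonneg_left hlogrd (by linarith)
        _ = 3 * c * (σ * Real.log n) := by rw [← mul_assoc, hσc]
    exact le_of_mul_le_mul_left h3 (by positivity)
  rcases key with ⟨Q, hQ, hQu, hQs⟩ | ⟨R, hR, S, hS, l', hl, hout, hw, hSs, huR⟩
  · left
    refine ⟨Q, hQ, ?_, hQu⟩
    exact prod_le_rpow (fun p hp => hprime p (Finset.sdiff_subset hp)) hn (hconv _ hQs)
  · right
    refine ⟨R, S, l', ⟨h, hR, hS, hl, hout, hw, hbig⟩, ?_, huR⟩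
    exact prod_le_rpow (fun p hp => hprime p (Finset.mem_of_mem_erase (hS hp))) hn (hconv _ hSs)

/-- Main theorem: the sharp exponent. -/
theorem main_sharp (θ ε : ℝ) (hθ : 0 ≤ θ) (hε : 0 < ε) :
    ∀ᶠ n : ℕ in atTop, ∀ T : Finset (ℕ × ℕ),
      (∀ t ∈ T, IsT t ∧ rd t ≤ n ∧ ht t ≤ (n : ℝ) ^ θ) →
      2 * (T.card : ℝ) ≤ (n : ℝ) ^ (2 / 3 + θ + ε) := by
  classical
  set k : ℕ := ⌈2 / ε⌉₊ with hk
  obtain ⟨c, hc⟩ : ∃ c : ℝ, c = (k : ℝ) + 1 := ⟨_, rfl⟩
  have hk0 : (0 : ℝ) ≤ k := Nat.cast_nonneg k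
  have hc1 : 1 ≤ c := by rw [hc]; linarith
  have hc0 : 0 < c := by linarith
  have hcε : 2 / ε ≤ c := by
    rw [hc]
    have := Nat.le_ceil (2 / ε)
    rw [← hk] at this
    linarith
  have hcε' : 1 / (3 * c) ≤ ε / 6 := by
    rw [div_le_iff₀ hε] at hcε
    rw [div_le_iff₀ (by positivity)]
    linarith
  set δ : ℝ := 1 / (4 * c * (4 * c + 1)) with hδd
  have hδ : 0 < δ := by positivity
  have hkδ : 4 * c * (4 * c + 1) * δ ≤ 1 := by
    rw [hδd, mul_one_div_cancel (by positivity)]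
  have hδ1 : δ ≤ 1 := by
    rw [hδd, div_le_one (by positivity)]
    nlinarith
  obtain ⟨σ, hσ⟩ : ∃ σ : ℝ, σ = 2 / 3 + 1 / (3 * c) := ⟨_, rfl⟩
  have hσε : σ ≤ 2 / 3 + ε / 6 := by rw [hσ]; linarith
  set κ : ℝ := ε / 4 with hκ
  have hκ0 : 0 < κ := by positivity
  obtain ⟨C2, hC2⟩ := count_light2 δ θ hδ hδ1 hθ
  obtain ⟨K1, hK1, hC3⟩ := count_mixed δ θ σ (ε / 6) hδ hδ1 hθ (by positivity)
  have hq := main_quasi (2 + κ) (ε / 4) (by linarith) (by positivity)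
  have hlim : Tendsto (fun n : ℕ => Real.log (n : ℝ)) atTop atTop :=
    Real.tendsto_log_atTop.comp tendsto_natCast_atTop_atTop
  have hlimκ : Tendsto (fun n : ℕ => Real.log (n : ℝ) ^ κ) atTop atTop :=
    (tendsto_rpow_atTop hκ0).comp hlim
  filter_upwards [hlim.eventually (eventually_ge_atTop 4),
    hlim.eventually (eventually_ge_atTop (128 / δ ^ 2)),
    hlimκ.eventually (eventually_ge_atTop (10 / δ ^ 2 * (K1 + 1))),
    hlimκ.eventually (eventually_ge_atTop 1),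
    hC2, hC3, hq, ev_log_pow_le 1 C2 (ε / 6) (by positivity),
    ev_log_pow_le 5 0 (ε / 2) (by positivity),
    eventually_ge_atTop 1] with n hx4 hxδ hxκ hxκ1 h2 h3 h1 e2 e5 hn1 T hT
  rw [one_mul] at e2
  rw [Real.rpow_zero, mul_one] at e5
  set x := Real.log (n : ℝ) with hx
  have hx0 : 0 < x := by linarith
  have hn0 : (0 : ℝ) < n := by exact_mod_cast hn1
  have hn1' : (1 : ℝ) ≤ n := by exact_mod_cast hn1
  have hpow : x ^ (2 + κ) = x ^ κ * (x * x) := by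
    rw [add_comm, Real.rpow_add hx0, show (2 : ℝ) = ((2 : ℕ) : ℝ) by norm_num, Real.rpow_natCast]
    ring
  have hpow1 : x ≤ x ^ (2 + κ) := by
    rw [hpow]
    nlinarith
  set T1 := T.filter (fun t => ht t ≤ x ^ (2 + κ)) with hT1
  set T2 := T.filter (fun t => 2 / δ ≤ ht t ∧ ∃ Q ⊆ (N t).primeFactors,
    ((∏ p ∈ (N t).primeFactors \ Q, p : ℕ) : ℝ) ≤ (n : ℝ) ^ σ ∧ ∑ p ∈ Q, u t p ≤ 1 - δ) with hT2
  set T3 := T.filter (fun t => ∃ R : ℕ, ∃ S : Finset ℕ, ∃ l' : Fin 3, MixD δ R S l' t ∧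
    ((∏ p ∈ S, p : ℕ) : ℝ) ≤ (n : ℝ) ^ σ ∧ 10 / δ * ⌈K1 * x⌉₊ ≤ ex t R) with hT3
  have hcover : T ⊆ T1 ∪ (T2 ∪ T3) := by
    intro t ht'
    obtain ⟨hI, hrd, hht⟩ := hT t ht'
    simp only [Finset.mem_union, hT1, hT2, hT3, Finset.mem_filter, ht', true_and]
    by_cases c1 : ht t ≤ x ^ (2 + κ)
    · left; exact c1
    right
    push Not at c1
    have hb1 : 128 / δ ^ 2 ≤ ht t := by linarith
    have hb2 : 2 ≤ ht t := by linarith
    have hb3 : 2 / δ ≤ ht t := by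
      refine le_trans ?_ hb1
      rw [div_le_div_iff₀ hδ (by positivity)]
      nlinarith
    rcases dichotomy hI hn1 hrd k hδ hc hkδ hσ hb1 hb2 with hL | ⟨R, S, l', hM, hSn, huR⟩
    · left; exact ⟨hb3, hL⟩
    · right
      refine ⟨R, S, l', hM, hSn, ?_⟩
      have hH := ht_pos hI
      have hRp := Nat.prime_of_mem_primeFactors hM.hR
      have hR0 : (0 : ℝ) < R := by exact_mod_cast hRp.pos
      have hRn : (R : ℝ) ≤ n := by
        have h5 : R ∣ rd t := Finset.dvd_prod_of_mem (fun p => p) hM.hR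
        exact_mod_cast (Nat.le_of_dvd (rd_pos t) h5).trans hrd
      have hlogR : Real.log R ≤ x := Real.log_le_log hR0 hRn
      have h4 : δ * ht t < ex t R * Real.log R := by
        have : u t R = ex t R * Real.log R / ht t := rfl
        rw [this, lt_div_iff₀ hH] at huR
        exact huR
      have h5 : (ex t R : ℝ) * Real.log R ≤ ex t R * x :=
        mul_le_mul_of_nonneg_left hlogR (Nat.cast_nonneg _)
      have h6 : δ * (x ^ κ * (x * x)) ≤ ex t R * x := by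
        have : δ * (x ^ κ * (x * x)) ≤ δ * ht t :=
          mul_le_mul_of_nonneg_left (by rw [← hpow]; exact c1.le) hδ.le
        linarith
      have h7 : δ * (x ^ κ * x) ≤ ex t R := by
        have : δ * (x ^ κ * x) * x ≤ ex t R * x := by
          calc δ * (x ^ κ * x) * x = δ * (x ^ κ * (x * x)) := by ring
            _ ≤ _ := h6
        exact le_of_mul_le_mul_right this hx0
      have h8 : (⌈K1 * x⌉₊ : ℝ) ≤ (K1 + 1) * x := by
        have := (Nat.ceil_lt_add_one (show 0 ≤ K1 * x by positivity)).le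
        nlinarith
      calc 10 / δ * (⌈K1 * x⌉₊ : ℝ) ≤ 10 / δ * ((K1 + 1) * x) :=
            mul_le_mul_of_nonneg_left h8 (by positivity)
        _ = δ * ((10 / δ ^ 2 * (K1 + 1)) * x) := by field_simp
        _ ≤ δ * (x ^ κ * x) := by
            apply mul_le_mul_of_nonneg_left _ hδ.le
            exact mul_le_mul_of_nonneg_right hxκ hx0.le
        _ ≤ ex t R := h7
  have hcard : (T.card : ℝ) ≤ T1.card + (T2.card + T3.card) := by
    have a1 := Finset.card_le_card hcover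
    have a2 := Finset.card_union_le T1 (T2 ∪ T3)
    have a3 := Finset.card_union_le T2 T3
    exact_mod_cast (by omega : T.card ≤ T1.card + (T2.card + T3.card))
  have hmem1 := fun t (h : t ∈ T1) => Finset.mem_filter.mp h
  have hmem2 := fun t (h : t ∈ T2) => Finset.mem_filter.mp h
  have hmem3 := fun t (h : t ∈ T3) => Finset.mem_filter.mp h
  set E : ℝ := (n : ℝ) ^ (2 / 3 + θ + ε / 2) with hE
  have hE0 : 0 < E := Real.rpow_pos_of_pos hn0 _
  have b1 : 2 * (T1.card : ℝ) ≤ E := by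
    refine (h1 T1 (fun t ht' => ?_)).trans ?_
    · obtain ⟨hmT, hle⟩ := hmem1 t ht'
      exact ⟨(hT t hmT).1, (hT t hmT).2.1, hle⟩
    · rw [hE]
      apply Real.rpow_le_rpow_of_exponent_le hn1'
      have h4 : 1 / 3 - 2 * κ / 9 ≤ 1 / (2 * (2 + κ) - 1) := by
        rw [le_div_iff₀ (by linarith)]
        nlinarith [sq_nonneg κ]
      linarith
  have b2 : (T2.card : ℝ) ≤ E := by
    have key := h2 ((n : ℝ) ^ σ) (Real.rpow_nonneg hn0.le _) T2 (by
      intro t ht'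
      obtain ⟨hmT, hb, hQ⟩ := hmem2 t ht'
      obtain ⟨hI, hrd, hht⟩ := hT t hmT
      exact ⟨hI, hrd, hht, hb, hQ⟩)
    refine key.trans ?_
    calc (n : ℝ) ^ σ * x ^ C2 ≤ (n : ℝ) ^ σ * (n : ℝ) ^ (ε / 6) :=
          mul_le_mul_of_nonneg_left e2 (Real.rpow_nonneg hn0.le _)
      _ = (n : ℝ) ^ (σ + ε / 6) := (Real.rpow_add hn0 _ _).symm
      _ ≤ E := by
          rw [hE]
          apply Real.rpow_le_rpow_of_exponent_le hn1'
          linarith
  have b3 : (T3.card : ℝ) ≤ E := by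
    have key := h3 T3 (by
      intro t ht'
      obtain ⟨hmT, hM⟩ := hmem3 t ht'
      obtain ⟨hI, hrd, hht⟩ := hT t hmT
      exact ⟨hrd, hht, hM⟩)
    refine key.trans ?_
    rw [hE]
    apply Real.rpow_le_rpow_of_exponent_le hn1'
    linarith
  have hfin : (n : ℝ) ^ (2 / 3 + θ + ε) = E * (n : ℝ) ^ (ε / 2) := by
    rw [hE, ← Real.rpow_add hn0]
    congr 1
    ring
  rw [hfin]
  calc 2 * (T.card : ℝ) ≤ E * 5 := by linarith
    _ ≤ E * (n : ℝ) ^ (ε / 2) := mul_le_mul_of_nonneg_left e5 hE0.le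

end Pool.Agent.Lib.Pabc6
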