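import Mathlib

open Finset Filter Topology

namespace Pool.Agent.Lib.Pabc6

/-- The coprime pairs of positive integers up to `m`. -/
def cop (m : ℕ) : Finset (ℕ × ℕ) :=
  ((Finset.Icc 1 m) ×ˢ (Finset.Icc 1 m)).filter (fun t => Nat.Coprime t.1 t.2)

theorem card_mult_le (m d : ℕ) (hd : 0 < d) :
    ((((Finset.Icc 1 m) ×ˢ (Finset.Icc 1 m)).filter (fun t => d ∣ t.1 ∧ d ∣ t.2)).card : ℝ) ≤
      (m : ℝ) ^ 2 / (d : ℝ) ^ 2 := by
  classical
  have h1 : (((Finset.Icc 1 m) ×ˢ (Finset.Icc 1 m)).filter (fun t => d ∣ t.1 ∧ d ∣ t.2)).card ≤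
      ((Finset.Icc 1 (m / d)) ×ˢ (Finset.Icc 1 (m / d))).card := by
    apply Finset.card_le_card_of_injOn (fun t => (t.1 / d, t.2 / d))
    · rintro ⟨a, b⟩ h
      simp only [Finset.coe_filter, Finset.mem_product, Finset.mem_Icc, Set.mem_setOf_eq] at h
      obtain ⟨⟨⟨a1, a2⟩, b1, b2⟩, ⟨x, rfl⟩, ⟨y, rfl⟩⟩ := h
      simp only [Finset.coe_product, Set.mem_prod, Finset.mem_coe, Finset.mem_Icc,
        Nat.mul_div_cancel_left _ hd]
      have hx : 0 < x := Nat.pos_of_ne_zero (by rintro rfl; simp at a1)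
      have hy : 0 < y := Nat.pos_of_ne_zero (by rintro rfl; simp at b1)
      refine ⟨⟨hx, ?_⟩, hy, ?_⟩
      · rw [Nat.le_div_iff_mul_le hd, mul_comm]; exact a2
      · rw [Nat.le_div_iff_mul_le hd, mul_comm]; exact b2
    · rintro ⟨a, b⟩ h ⟨a', b'⟩ h' heq
      simp only [Finset.coe_filter, Finset.mem_product, Finset.mem_Icc, Set.mem_setOf_eq] at h h'
      obtain ⟨_, ⟨x, rfl⟩, ⟨y, rfl⟩⟩ := h
      obtain ⟨_, ⟨x', rfl⟩, ⟨y', rfl⟩⟩ := h'
      simp only [Nat.mul_div_cancel_left _ hd, Prod.mk.injEq] at heq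
      rw [heq.1, heq.2]
  rw [Finset.card_product, Nat.card_Icc, Nat.add_sub_cancel] at h1
  have h2 : ((m / d : ℕ) : ℝ) ≤ (m : ℝ) / d := Nat.cast_div_le
  have hd0 : (0 : ℝ) < d := by exact_mod_cast hd
  calc ((((Finset.Icc 1 m) ×ˢ (Finset.Icc 1 m)).filter (fun t => d ∣ t.1 ∧ d ∣ t.2)).card : ℝ) ≤
      ((m / d : ℕ) : ℝ) * ((m / d : ℕ) : ℝ) := by exact_mod_cast h1
    _ ≤ ((m : ℝ) / d) * ((m : ℝ) / d) := by gcongr
    _ = (m : ℝ) ^ 2 / (d : ℝ) ^ 2 := by ring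

theorem sum_inv_sq_le (m : ℕ) : ∑ d ∈ Finset.Icc 2 m, 1 / (d : ℝ) ^ 2 ≤ 3 / 4 := by
  rcases Nat.lt_or_ge m 2 with hm | hm
  · rw [Finset.Icc_eq_empty (by omega)]
    simp
    norm_num
  · have key : ∀ k : ℕ, ∑ d ∈ Finset.Icc 2 (k + 2), 1 / (d : ℝ) ^ 2 ≤ 3 / 4 - 1 / ((k : ℝ) + 2) := by
      intro k
      induction k with
      | zero =>
        simp
        norm_num
      | succ k ih =>
        have e : k + 1 + 2 = (k + 2) + 1 := by ring
        rw [e, Finset.sum_Icc_succ_top (by omega)]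
        have hk : (0 : ℝ) ≤ k := Nat.cast_nonneg k
        have h1 : 1 / (((k + 2 + 1 : ℕ) : ℝ)) ^ 2 ≤ 1 / ((k : ℝ) + 2) - 1 / ((k : ℝ) + 1 + 2) := by
          push_cast
          rw [div_sub_div _ _ (by positivity) (by positivity), div_le_div_iff₀ (by positivity)
            (by positivity)]
          nlinarith
        push_cast at h1 ⊢
        linarith
    obtain ⟨k, rfl⟩ : ∃ k, m = k + 2 := ⟨m - 2, by omega⟩
    have := key k
    have h2 : 0 ≤ 1 / ((k : ℝ) + 2) := by positivity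
    linarith

theorem card_cop (m : ℕ) : (m : ℝ) ^ 2 / 4 ≤ ((cop m).card : ℝ) := by
  classical
  set A := (Finset.Icc 1 m) ×ˢ (Finset.Icc 1 m) with hA
  have hAc : (A.card : ℝ) = (m : ℝ) ^ 2 := by
    rw [hA, Finset.card_product, Nat.card_Icc, Nat.add_sub_cancel]
    push_cast
    ring
  have hsplit : (A.card : ℝ) = (cop m).card + (A.filter (fun t => ¬ Nat.Coprime t.1 t.2)).card := by
    exact_mod_cast (Finset.card_filter_add_card_filter_not (s := A)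
      (fun t => Nat.Coprime t.1 t.2)).symm
  have hsub : A.filter (fun t => ¬ Nat.Coprime t.1 t.2) ⊆
      (Finset.Icc 2 m).biUnion (fun d => A.filter (fun t => d ∣ t.1 ∧ d ∣ t.2)) := by
    rintro ⟨a, b⟩ h
    rw [Finset.mem_filter, hA, Finset.mem_product, Finset.mem_Icc, Finset.mem_Icc] at h
    simp only at h
    rw [Finset.mem_biUnion]
    refine ⟨Nat.gcd a b, ?_, ?_⟩
    · rw [Finset.mem_Icc]
      have h1 : 0 < Nat.gcd a b := Nat.gcd_pos_of_pos_left _ (by omega)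
      have h2 : Nat.gcd a b ≠ 1 := h.2
      have h3 : Nat.gcd a b ≤ a := Nat.gcd_le_left _ (by omega)
      omega
    · rw [Finset.mem_filter, hA, Finset.mem_product, Finset.mem_Icc, Finset.mem_Icc]
      exact ⟨h.1, Nat.gcd_dvd_left _ _, Nat.gcd_dvd_right _ _⟩
  have h3 : ((A.filter (fun t => ¬ Nat.Coprime t.1 t.2)).card : ℝ) ≤ 3 / 4 * (m : ℝ) ^ 2 := by
    calc ((A.filter (fun t => ¬ Nat.Coprime t.1 t.2)).card : ℝ) ≤
        (((Finset.Icc 2 m).biUnion (fun d => A.filter (fun t => d ∣ t.1 ∧ d ∣ t.2))).card : ℝ) := by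
          exact_mod_cast Finset.card_le_card hsub
      _ ≤ ∑ d ∈ Finset.Icc 2 m, ((A.filter (fun t => d ∣ t.1 ∧ d ∣ t.2)).card : ℝ) := by
          exact_mod_cast Finset.card_biUnion_le
      _ ≤ ∑ d ∈ Finset.Icc 2 m, (m : ℝ) ^ 2 / (d : ℝ) ^ 2 := by
          apply Finset.sum_le_sum
          intro d hd
          rw [Finset.mem_Icc] at hd
          exact card_mult_le m d (by omega)
      _ = (m : ℝ) ^ 2 * ∑ d ∈ Finset.Icc 2 m, 1 / (d : ℝ) ^ 2 := by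
          rw [Finset.mul_sum]
          apply Finset.sum_congr rfl
          intro d _
          ring
      _ ≤ (m : ℝ) ^ 2 * (3 / 4) := mul_le_mul_of_nonneg_left (sum_inv_sq_le m) (by positivity)
      _ = 3 / 4 * (m : ℝ) ^ 2 := by ring
  rw [hAc] at hsplit
  linarith

/-- The choice of `m`. -/
theorem exists_m (θ : ℝ) (hθ : 0 < θ) : ∀ᶠ Y : ℕ in atTop, ∃ m : ℕ, 2 * m ^ 3 ≤ Y ∧
    Real.log (2 * m) ≤ (Y : ℝ) ^ θ ∧ (Y : ℝ) ^ (2 / 3 : ℝ) / 16 ≤ (m : ℝ) ^ 2 / 4 := by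
  have h1 : Tendsto (fun x : ℝ => Real.log x / x ^ θ) atTop (𝓝 0) :=
    (isLittleO_log_rpow_atTop hθ).tendsto_div_nhds_zero
  have h2 := tendsto_natCast_atTop_atTop.eventually (h1.eventually (gt_mem_nhds one_pos))
  have h3 : Tendsto (fun Y : ℕ => (Y : ℝ) ^ (1 / 3 : ℝ)) atTop atTop :=
    (tendsto_rpow_atTop (by norm_num)).comp tendsto_natCast_atTop_atTop
  filter_upwards [h2, h3.eventually (eventually_ge_atTop 8), eventually_ge_atTop 1] with Y hlog h8 hY1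
  have hY0 : (0 : ℝ) < Y := by exact_mod_cast hY1
  set y := (Y : ℝ) ^ (1 / 3 : ℝ) with hy
  have hy0 : 0 < y := Real.rpow_pos_of_pos hY0 _
  have hy3 : y ^ 3 = Y := by
    rw [hy, ← Real.rpow_natCast, ← Real.rpow_mul hY0.le]
    norm_num
  have hy2 : (Y : ℝ) ^ (2 / 3 : ℝ) = y ^ 2 := by
    rw [hy, ← Real.rpow_natCast, ← Real.rpow_mul hY0.le]
    norm_num
  set m := ⌊3 / 4 * y⌋₊ with hm
  have hm1 : (m : ℝ) ≤ 3 / 4 * y := Nat.floor_le (by positivity)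
  have hm2 : 3 / 4 * y < m + 1 := Nat.lt_floor_add_one _
  have hm0 : (0 : ℝ) ≤ m := Nat.cast_nonneg m
  have hmpos : (0 : ℝ) < m := by linarith
  refine ⟨m, ?_, ?_, ?_⟩
  · have h5 : (m : ℝ) ^ 3 ≤ (3 / 4 * y) ^ 3 := pow_le_pow_left₀ hm0 hm1 3
    have h6 : (3 / 4 * y) ^ 3 = 27 / 64 * Y := by rw [mul_pow, hy3]; norm_num
    have h7 : 2 * (m : ℝ) ^ 3 ≤ Y := by linarith
    exact_mod_cast h7
  · have h5 : Real.log Y ≤ (Y : ℝ) ^ θ := by
      have hp : 0 < (Y : ℝ) ^ θ := Real.rpow_pos_of_pos hY0 θ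
      rw [div_lt_one hp] at hlog
      exact hlog.le
    refine le_trans (Real.log_le_log (by positivity) ?_) h5
    rw [← hy3]
    nlinarith [mul_pos hy0 hy0]
  · rw [hy2]
    have h5 : y / 2 ≤ m := by linarith
    have h6 : (y / 2) ^ 2 ≤ (m : ℝ) ^ 2 := pow_le_pow_left₀ (by positivity) h5 2
    nlinarith

end Pool.Agent.Lib.Pabc6
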